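import Pool.Agent.Helper61.FW.Cost
import Pool.Agent.Helper70.FW.Stw
import Pool.Agent.Helper13.AM.Blk

/-!
# Theorem FW and the flat chapter

`topf` : Theorem FW in finite form; `st_wvq` : the flat input `ST_WVQ` of the amplification.
-/

set_option autoImplicit false

namespace Pool.Agent.Helper61.FW

open Pool.Agent.Helper70.FW

/-- **THEOREM FW IN FINITE FORM** -/
theorem topf (N : ℕ) (ρ : ℝ) (hρ : 0 < ρ) (hρ1 : ρ ≤ 1) : TOPF N ρ 0 (ρ ^ 2 / 256) := by
  cases N with
  | zero => exact topf_zero ρ 0 _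
  | succ N => exact topf_of_cost1 (Nat.succ_pos N) hρ hρ1 (cost1 N hρ hρ1)

/-- **THE FLAT CHAPTER** -/
theorem st_wvq : Pool.Agent.Helper13.AM.ST_WVQ := Pool.Agent.Helper70.FW.wvq_all topf

end Pool.Agent.Helper61.FW
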