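import Pool.Agent.Helper61.FW.Off
import Pool.Agent.Helper99.FW.Rec

/-!
# Theorem FW, conventions of the instance

rows and columns `Fin (k + 2 K)`, spectators `< k`, carriers `car b e` (block `b < K`, quadruple `e`), moves `mvs`,
the label `Fp` (= `F+`) of the spectators, `Sd` : one side (points, recorded tree, bodies of the nodes).
-/

set_option autoImplicit false

namespace Pool.Agent.Helper61.FW

open Finset Pool.Agent.Helper69.RK Pool.Agent.Helper61.GL Pool.Agent.Helper58.TR Pool.Agent.Helper25.FA
  Pool.Agent.Helper46.WF Pool.Agent.Helper58.VW Pool.Agent.Helper99.FW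

noncomputable section

/-- the carrier of the quadruple `e` of the block `b` -/
def car {k K : ℕ} (b : Fin K) (e : Fin 2) : Fin (k + 2 * K) := ⟨k + 2 * b.val + e.val, by omega⟩

theorem car_val {k K : ℕ} (b : Fin K) (e : Fin 2) : (car (k := k) b e).val = k + 2 * b.val + e.val := rfl

theorem car_inj {k K : ℕ} {b b' : Fin K} {e e' : Fin 2} (h : car (k := k) b e = car (k := k) b' e') :
    b = b' ∧ e = e' := by
  have h1 := congrArg Fin.val h
  rw [car_val, car_val] at h1
  constructor
  · apply Fin.ext
    omega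
  · apply Fin.ext
    omega

/-- the spectators -/
def spc (k K : ℕ) : Finset (Fin (k + 2 * K)) := univ.filter fun a => a.val < k

theorem mem_spc {k K : ℕ} {a : Fin (k + 2 * K)} : a ∈ spc k K ↔ a.val < k := by simp [spc]

theorem car_notin {k K : ℕ} (b : Fin K) (e : Fin 2) : car (k := k) b e ∉ spc k K := by
  rw [mem_spc, car_val]
  omega

theorem card_spc (k K : ℕ) : (spc k K).card = k := by
  unfold spc
  have h : (univ.filter fun a : Fin (k + 2 * K) => a.val < k) =
      (univ : Finset (Fin k)).map (Fin.castLEEmb (Nat.le_add_right k (2 * K))) := by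
    ext a
    simp only [mem_filter, mem_univ, true_and, mem_map, Fin.castLEEmb_apply]
    constructor
    · intro h
      exact ⟨⟨a.val, h⟩, Fin.ext rfl⟩
    · rintro ⟨b, rfl⟩
      exact b.isLt
  rw [h, card_map, card_univ, Fintype.card_fin]

/-- the moves: even = refresh; odd = move with the carrier `k + 2 b` (first quadruple) or `k + 2 b + 1` -/
def mvs (k K : ℕ) (i : ℕ) : Option (Fin (k + 2 * K)) :=
  if h : i < 8 * K then (if i % 2 = 0 then none else some (car ⟨i / 8, by omega⟩ (if i % 8 < 4 then 0 else 1)))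
  else none

theorem mvs_even {k K i : ℕ} (h : i % 2 = 0) : mvs k K i = none := by
  unfold mvs
  split_ifs
  · rfl
  · rfl

theorem mvs_odd {k K i : ℕ} (h : i < 8 * K) (h2 : i % 2 = 1) :
    mvs k K i = some (car ⟨i / 8, by omega⟩ (if i % 8 < 4 then 0 else 1)) := by
  unfold mvs
  rw [dif_pos h, if_neg (by omega)]

variable {Ω φ α β : Type} [Fintype Ω] {N : ℕ}

/-- the label of the spectators -/
def Fp (D : ED Ω φ α β N) {Λ : Type} {k K : ℕ} (en : Fin (k + 2 * K) → Fin (k + 2 * K) → Λ → Ω)
    (a0 b0 : Fin (k + 2 * K)) (w : Λ) : (({a // a ∈ spc k K} → α) × ({b // b ∈ spc k K} → β)) × φ :=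
  ((PR D en b0 (spc k K) w, QC D en a0 (spc k K) w), D.F (en a0 b0 w))

/-- one side: points with label, time and vector, recorded tree, bodies of the nodes -/
structure Sd (φ α R : Type) (N : ℕ) where
  /-- the base label -/
  F : α → φ
  /-- the time -/
  T : α → ℝ
  /-- the vector -/
  A : α → Fin N → ℝ
  /-- the recorder -/
  E : ℕ → (α → Lb φ R) → α → R
  /-- the length of the blocks -/
  P : ℕ
  /-- the offsets -/
  o : ℕ → ℕ
  /-- the bodies with their lines -/
  B : ℕ → ℕ → Lb φ R → NB N

variable {R : Type}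

/-- the node of level `i P + s` -/
def Sd.n (S : Sd φ α R N) (i s : ℕ) (q : α) : Lb φ R := nd S.E S.F S.T S.P S.o i s q

/-- the node of level `m` -/
def Sd.nL (S : Sd φ α R N) (m : ℕ) (q : α) : Lb φ R := S.n (m / S.P) (m % S.P) q

/-- the body of the node of level `m` of a point -/
def Sd.bL (S : Sd φ α R N) (m : ℕ) (q : α) : NB N := S.B (m / S.P) (m % S.P) (S.nL m q)

open Classical in
/-- the frame vectors of the nodes of level `m` of the points `x c`, `c` in `s`; none at the gap levels -/
def Sd.W {ι : Type} (S : Sd φ α R N) (S' : ℕ) (s : Finset ι) (x : ι → α) (m : ℕ) : Finset (Fin N → ℝ) :=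
  if m % S.P < S' then s.biUnion (fun c => univ.image (S.bL m (x c)).fr) else ∅

end

end Pool.Agent.Helper61.FW
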