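import Pool.Agent.Helper61.FW.Se

/-! Theorem FW: START and END for the functional of families of vectors. -/

set_option autoImplicit false

namespace Pool.Agent.Helper61.FW

open Finset Matrix Pool.Agent.Helper69.RK Pool.Agent.Helper92.W Pool.Agent.Helper46.WF Pool.Agent.Helper61.EC
  Pool.Agent.Helper15.VW Pool.Agent.Helper78.FW Pool.Agent.Helper26.VW
open Pool.Agent.Helper61.GL hiding fl

noncomputable section

variable {N : ℕ} {Ω δ : Type} [Fintype Ω]

/-- the frame of a vector and small vectors -/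
def M0 (a : Fin N) (v : Fin N → ℝ) (c : ℝ) : Mt N := (c • (1 : Mt N)).updateCol a v

theorem M0_apply (a : Fin N) (v : Fin N → ℝ) (c : ℝ) (i j : Fin N) :
    M0 a v c i j = if j = a then v i else if i = j then c else 0 := by
  unfold M0
  rw [Matrix.updateCol_apply]
  split_ifs with h1 h2
  · rfl
  · rw [Matrix.smul_apply, h2, Matrix.one_apply_eq, smul_eq_mul, mul_one]
  · rw [Matrix.smul_apply, Matrix.one_apply_ne h2, smul_zero]

theorem M0_det (a : Fin N) (v : Fin N → ℝ) (c : ℝ) : (M0 a v c).det = c ^ (N - 1) * v a := by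
  unfold M0
  rw [← Matrix.cramer_apply, Matrix.cramer_eq_adjugate_mulVec, Matrix.adjugate_smul, Matrix.adjugate_one,
    Matrix.smul_mulVec, Matrix.one_mulVec, Fintype.card_fin]
  rfl

theorem M0_inv (a : Fin N) (v : Fin N → ℝ) (c : ℝ) (hc : c ≠ 0) (hv : v a ≠ 0) (z : Fin N → ℝ) (i : Fin N)
    (hi : i ≠ a) : ((M0 a v c)⁻¹ *ᵥ z) i = c⁻¹ * (z i - v i / v a * z a) := by
  have h1 : (M0 a v c) *ᵥ (fun i => if i = a then z a / v a else c⁻¹ * (z i - v i / v a * z a)) = z := by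
    funext k
    simp only [Matrix.mulVec, dotProduct, M0_apply]
    rw [← Finset.add_sum_erase _ _ (Finset.mem_univ a)]
    simp only [if_true]
    by_cases hk : k = a
    · subst hk
      rw [Finset.sum_eq_zero]
      · field_simp
        ring
      · intro j hj
        have h2 := Finset.ne_of_mem_erase hj
        rw [if_neg h2, if_neg (fun h => h2 h.symm), zero_mul]
    · rw [Finset.sum_eq_single_of_mem k (Finset.mem_erase.mpr ⟨hk, Finset.mem_univ k⟩)]
      · rw [if_neg hk, if_pos rfl, if_neg hk]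
        field_simp
        ring
      · intro j hj hjk
        rw [if_neg (Finset.ne_of_mem_erase hj), if_neg (fun h => hjk h.symm), zero_mul]
  have h2 : (M0 a v c).det ≠ 0 := by
    rw [M0_det]
    exact mul_ne_zero (pow_ne_zero _ hc) hv
  have h3 : (M0 a v c)⁻¹ *ᵥ z = (fun i => if i = a then z a / v a else c⁻¹ * (z i - v i / v a * z a)) := by
    conv_lhs => rw [← h1]
    rw [Matrix.mulVec_mulVec, Matrix.nonsing_inv_mul _ (isUnit_iff_ne_zero.mpr h2), Matrix.one_mulVec]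
  rw [h3]
  simp only [if_neg hi]

/-- START, finite form -/
theorem sz_start (μ : Ω → ℝ) (hμ : ∀ ω, 0 ≤ μ ω) (hm : mass μ = 1) (z : Ω → Fin N → ℝ) (Y : Ω → δ) (n : ℕ) (e φ : ℝ)
    (hQ : ∀ (a : Fin N) (w : Fin N → ℝ), w a = 1 → (∀ i, |w i| ≤ 1) →
      ((N : ℝ) - 1) * n - e ≤ CH μ (fun ω i => fl n (z ω i - w i * z ω a)) Y)
    (hφ : (1 / 2 : ℝ) ^ n ≤ φ) (Z : Multiset (Fin N → ℝ)) (hZ : fam (flr (N := N) φ) ≤ Z) (v : Fin N → ℝ)
    (hv : v ∈ Z) (c : Fin N) (hvc : v c ≠ 0) :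
    Real.logb 2 |v c| - (e + N * Real.logb 2 (2 * (1 + 2 * (N * 1)))) ≤ SZ μ z Y Z := by
  classical
  have hc0 : (0 : ℝ) < (1 / 2) ^ n := by positivity
  have hφ0 : 0 < φ := lt_of_lt_of_le hc0 hφ
  obtain ⟨a, -, ha⟩ := Finset.exists_max_image univ (fun i => |v i|) ⟨c, Finset.mem_univ c⟩
  have hva : v a ≠ 0 := by
    intro h
    have h1 := ha c (Finset.mem_univ c)
    rw [h, abs_zero] at h1
    exact hvc (abs_eq_zero.mp (le_antisymm h1 (abs_nonneg _)))
  set w : Fin N → ℝ := fun i => v i / v a with hw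
  have hwa : w a = 1 := div_self hva
  have hw1 : ∀ i, |w i| ≤ 1 := by
    intro i
    rw [hw]
    simp only [abs_div]
    exact (div_le_one (abs_pos.mpr hva)).mpr (ha i (Finset.mem_univ i))
  have h1 := hQ a w hwa hw1
  set M := M0 a v ((1 / 2 : ℝ) ^ n) with hM
  have hMd : M.det ≠ 0 := by
    rw [hM, M0_det]
    exact mul_ne_zero (pow_ne_zero _ hc0.ne') hva
  have hZd := frm_det hφ0 hZ
  have hB : Bdd 1 ((frm Z)⁻¹ * M) := by
    intro i k
    have e1 : ((frm Z)⁻¹ * M) i k = ((frm Z)⁻¹ *ᵥ (fun j => M j k)) i := by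
      simp only [Matrix.mul_apply, Matrix.mulVec, dotProduct]
    rw [e1]
    by_cases hk : k = a
    · have e2 : (fun j => M j k) = v := by
        funext j
        rw [hM, M0_apply, if_pos hk]
      rw [e2]
      exact frm_mem hφ0 hZ hv i
    · have e2 : (fun j => M j k) = ((1 / 2 : ℝ) ^ n / φ) • flr (N := N) φ k := by
        funext j
        rw [hM, M0_apply, if_neg hk, Pi.smul_apply, flr, smul_eq_mul]
        by_cases hj : j = k
        · subst hj
          rw [if_pos rfl, Pi.single_eq_same]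
          field_simp
        · rw [if_neg hj, Pi.single_eq_of_ne hj, mul_zero]
      rw [e2, Matrix.mulVec_smul, Pi.smul_apply, smul_eq_mul, abs_mul, abs_of_pos (by positivity)]
      have e3 := frm_mem hφ0 hZ (Multiset.mem_of_le hZ (mem_fam _ k)) i
      exact mul_le_one₀ ((div_le_one hφ0).mpr hφ) (abs_nonneg _) e3
  have h2 := SF_mono μ hμ hm z Y M (frm Z) hMd hZd 1 zero_le_one hB
  have h3 : CH μ (fun ω i => fl n (z ω i - w i * z ω a)) Y ≤ CH μ (fun ω => pf M 0 (z ω)) Y := by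
    apply ch_mono μ hμ
    intro ω ω' _ _ hh _
    funext i
    by_cases hi : i = a
    · subst hi
      rw [hwa, one_mul, one_mul, sub_self, sub_self]
    · have h4 := congrFun hh i
      have h5 : ∀ x : Fin N → ℝ, pf M 0 x i = fl n (x i - w i * x a) := by
        intro x
        unfold pf
        rw [pow_zero, one_mul, hM, M0_inv a v _ hc0.ne' hva x i hi]
        have h6 : ((1 / 2 : ℝ) ^ n)⁻¹ = 2 ^ n := by
          rw [one_div, inv_pow, inv_inv]
        rw [h6]
        rfl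
      rw [h5, h5] at h4
      exact h4
  have h4 : Real.logb 2 |M.det| = Real.logb 2 |v a| - ((N : ℝ) - 1) * n := by
    have hN : 1 ≤ N := by
      have := a.2
      omega
    rw [hM, M0_det, abs_mul, Real.logb_mul (abs_ne_zero.mpr (pow_ne_zero _ hc0.ne')) (abs_ne_zero.mpr hva), abs_pow,
      Real.logb_pow, abs_pow, Real.logb_pow, abs_of_pos (by norm_num : (0 : ℝ) < 1 / 2), one_div, Real.logb_inv,
      Real.logb_self_eq_one (by norm_num), Nat.cast_sub hN]
    push_cast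
    ring
  have h5 : Real.logb 2 |v c| ≤ Real.logb 2 |v a| :=
    Real.logb_le_logb_of_le (by norm_num) (abs_pos.mpr hvc) (ha c (Finset.mem_univ c))
  unfold SZ
  have h6 : SF μ z Y M = CH μ (fun ω => pf M 0 (z ω)) Y + Real.logb 2 |M.det| := rfl
  linarith

/-- END, finite form -/
theorem sz_end (μ : Ω → ℝ) (hμ : ∀ ω, 0 ≤ μ ω) (hm : mass μ = 1) (z : Ω → Fin N → ℝ) (Y : Ω → δ) (j : ℕ) (ρ e : ℝ)
    (hU : CH μ (fun ω => vfl j (z ω)) Y ≤ ((N : ℝ) - ρ) * j + e) :
    SZ μ z Y (fam (flr (N := N) ((1 / 2) ^ j))) ≤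
      -(ρ * j) + (e + N * Real.logb 2 (2 * (1 + 2 * (N * 1)))) := by
  classical
  set φ : ℝ := (1 / 2) ^ j with hφ
  have hφ0 : 0 < φ := by positivity
  set Z := fam (flr (N := N) φ) with hZ
  have hZd := frm_det hφ0 (le_refl Z)
  have hMd : ((φ • (1 : Mt N)) : Mt N).det ≠ 0 := by
    rw [Matrix.det_smul, Matrix.det_one, mul_one]
    exact pow_ne_zero _ hφ0.ne'
  have hinv : ((φ • (1 : Mt N)) : Mt N)⁻¹ = φ⁻¹ • (1 : Mt N) := by
    apply Matrix.inv_eq_right_inv
    rw [Matrix.smul_mul, Matrix.mul_smul, smul_smul, mul_one, mul_inv_cancel₀ hφ0.ne', one_smul]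
  have hB : Bdd 1 ((φ • (1 : Mt N))⁻¹ * frm Z) := by
    intro i k
    rw [hinv, Matrix.smul_mul, one_mul, Matrix.smul_apply, smul_eq_mul]
    have e1 : frm Z i k = fw Z k i := congrFun (frm_colv Z k) i
    rw [e1]
    obtain ⟨l, hl⟩ := (mem_fam_iff _ _).mp (fw_mem (le_refl Z) k)
    rw [← hl, flr]
    by_cases h : i = l
    · subst h
      rw [Pi.single_eq_same, inv_mul_cancel₀ hφ0.ne', abs_one]
    · rw [Pi.single_eq_of_ne h, mul_zero, abs_zero]
      exact zero_le_one
  have h2 := SF_mono μ hμ hm z Y (frm Z) (φ • (1 : Mt N)) hZd hMd 1 zero_le_one hB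
  have h3 : CH μ (fun ω => pf (φ • (1 : Mt N)) 0 (z ω)) Y = CH μ (fun ω => vfl j (z ω)) Y := by
    congr 1
    funext ω i
    unfold pf
    rw [pow_zero, one_mul, hinv, Matrix.smul_mulVec, Matrix.one_mulVec, Pi.smul_apply, smul_eq_mul]
    have h6 : φ⁻¹ = 2 ^ j := by
      rw [hφ, one_div, inv_pow, inv_inv]
    rw [h6]
    rfl
  have h4 : Real.logb 2 |((φ • (1 : Mt N)) : Mt N).det| = -(N * j) := by
    rw [Matrix.det_smul, Matrix.det_one, mul_one, abs_pow, Real.logb_pow, Fintype.card_fin, hφ, abs_pow,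
      Real.logb_pow, abs_of_pos (by norm_num : (0 : ℝ) < 1 / 2), one_div, Real.logb_inv,
      Real.logb_self_eq_one (by norm_num)]
    ring
  unfold SZ
  have h6 : SF μ z Y (φ • (1 : Mt N)) = CH μ (fun ω => pf (φ • (1 : Mt N)) 0 (z ω)) Y +
      Real.logb 2 |((φ • (1 : Mt N)) : Mt N).det| := rfl
  rw [h3, h4] at h6
  nlinarith

end

end Pool.Agent.Helper61.FW
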