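import Pool.Agent.Helper61.FW.Cx

/-!
# Offsets for all rows of an exchangeable array
-/

set_option autoImplicit false

namespace Pool.Agent.Helper61.FW

open Finset Pool.Agent.Helper69.RK Pool.Agent.Helper61.GL Pool.Agent.Helper25.FA Pool.Agent.Helper46.WF
  Pool.Agent.Helper70.FW Pool.Agent.Helper22.FW Pool.Agent.Helper58.TR Pool.Agent.Helper99.FW
open Pool.Agent.Helper9.ND (Rc)

noncomputable section

variable {Ω φ α β : Type} [Fintype Ω] {N : ℕ}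

/-- all rows have the same law -/
theorem xa_row_eq {Λ ιr ιc : Type} [Fintype Λ] [Fintype ιc] [DecidableEq ιc] [DecidableEq ιr] {l : Λ → ℝ} {en : ιr → ιc → Λ → Ω}
    (h : XA l en) (a a' : ιr) : push (row en a) l = push (row en a') l := by
  obtain ⟨e, h1, h2⟩ := h.row (Equiv.swap a a')
  funext y
  rw [push_apply, push_apply, ← Equiv.sum_comp e (fun w => e1_ind (row en a w = y) * l w)]
  refine Finset.sum_congr rfl fun w _ => ?_
  rw [h1]
  have h3 : row en a (e w) = row en a' w := by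
    funext b
    show en a b (e w) = en a' b w
    rw [h2, Equiv.swap_apply_left]
  rw [h3]

/-- **OFFSETS FOR ALL ROWS** -/
theorem off_all {k K : ℕ} {D : ED Ω φ α β N} [Fintype α] {ρ η εQ ηQ c : ℝ} {tp : α → ℝ}
    {tq : β → ℝ} {Ap : α → Fin N → ℝ} {Cq : β → Fin N → ℝ} (h : EdgD D ρ η εQ ηQ c tp tq Ap Cq) {FP : α → φ}
    (hFP : ∀ ω, FP (D.P ω) = D.F ω) {Λ : Type} [Fintype Λ] {l : Λ → ℝ}
    {en : Fin (k + 2 * K) → Fin (k + 2 * K) → Λ → Ω} {E : ℝ} (hr : AR D l en E) (hx : XA l en)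
    (b0 : Fin (k + 2 * K)) (hη : 0 ≤ η) (P ρw r S' : ℕ) (Dw : ℕ) (g κ : ℝ) (hS : 0 < S') (hSP : S' + ρw ≤ P) (L : ℕ)
    {δ : ℝ} (hδ : 0 < δ) :
    ∃ o : ℕ → ℕ, (∀ i, o i < S') ∧ ∀ a : Fin (k + 2 * K),
      ∑ i ∈ range L, ∑ s ∈ range S', ∑ mv : Option (Fin (k + 2 * K)),
        Pw (push (row en a) l) (NCl D (push (row en a) l) b0 (EG N ρw Dw r g κ (push D.P D.μ) tp Ap) FP tp P ρw o δ
          mv i s) ≤
      4 / δ ^ 2 * (S' * (((k + 2 * K : ℕ) + 1) * (E + N + (η * D.n + N)))) := by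
  obtain ⟨o, h1, h2⟩ := off_array hr h.ed.ms b0 b0 (EG N ρw Dw r g κ (push D.P D.μ) tp Ap) FP tp P ρw S'
    (fun ω _ => hFP ω) (η * D.n + N) (by positivity) h.e3 hS hSP L hδ
  rw [Fintype.card_fin] at h2
  refine ⟨o, h1, fun a => ?_⟩
  rw [xa_row_eq hx a b0]
  exact h2

end

end Pool.Agent.Helper61.FW
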