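import Pool.Agent.Helper61.FW.Cfin

/-! Theorem FW in dimension zero. -/

set_option autoImplicit false

namespace Pool.Agent.Helper61.FW

open Finset Pool.Agent.Helper69.RK Pool.Agent.Helper61.GL Pool.Agent.Helper46.WF Pool.Agent.Helper70.FW

theorem topf_zero (ρ l κ : ℝ) : TOPF 0 ρ l κ := by
  intro ε hε
  refine ⟨1, one_pos, fun ηQ _ => ⟨1, one_pos, 0, fun n _ Ω φ _ μ F T T' A C z c h => ?_⟩⟩
  refine ⟨Unit, fun _ => (), fun _ _ => 0, fun _ _ => 0, ?_, fun _ _ _ _ _ _ _ => ⟨rfl, rfl⟩, ?_⟩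
  · have h1 := ch_int μ h.nn (fun _ => (0 : ℤ)) F 0 le_rfl (fun _ _ _ _ _ => by simp)
    have h2 : CH μ (fun _ => ()) F = CH μ (fun _ => (0 : ℤ)) F := by
      apply ch_congr_left
      intro _ _ _ _ _
      simp
    rw [h2]
    have h3 : Real.logb 2 ((0 : ℝ) + 1) = 0 := by simp
    rw [h3, zero_mul] at h1
    have : 0 ≤ ε * n := by positivity
    linarith
  · have h1 : Pw μ (fun ω => ¬ ∀ i : Fin 0, |(0 : Fin 0 → ℝ) i| ≤ (2 : ℝ) ^ (ε * n) ∧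
        |(0 : Fin 0 → ℝ) i| ≤ (2 : ℝ) ^ (ε * n) ∧
        |A ω i - (0 : Fin 0 → ℝ) i * T ω - (0 : Fin 0 → ℝ) i| ≤ (2 : ℝ) ^ (-(κ * n))) = 0 := by
      unfold Pw
      refine Finset.sum_eq_zero fun ω _ => ?_
      rw [if_neg]
      intro hn
      exact hn fun i => i.elim0
    exact h1.le.trans hε.le

end Pool.Agent.Helper61.FW
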