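import Pool.Agent.Helper61.FW.Cy
import Pool.Agent.Helper18.FW.NumC
import Pool.Agent.Helper99.FW.Cla

/-!
# Theorem FW in finite form from the costs of the rows

`finA` of Helper78 for the array, the recorded trees and START / END.
-/

set_option autoImplicit false

namespace Pool.Agent.Helper61.FW

open Finset Pool.Agent.Helper69.RK Pool.Agent.Helper61.GL Pool.Agent.Helper25.FA Pool.Agent.Helper46.WF
  Pool.Agent.Helper70.FW Pool.Agent.Helper22.FW Pool.Agent.Helper58.TR Pool.Agent.Helper99.FW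
  Pool.Agent.Helper58.VW Pool.Agent.Helper78.FW Pool.Agent.Helper15.VW Pool.Agent.Helper18.FW
open Pool.Agent.Helper61.EC (vfl)
open Pool.Agent.Helper9.ND (Rc)

noncomputable section

variable {Ω φ α β : Type} [Fintype Ω] {N : ℕ}

theorem sdL_eq (D : ED Ω φ α β N) [Fintype α] (FP : α → φ) (tp : α → ℝ) (Ap : α → Fin N → ℝ) (P ρw Dw r : ℕ) (g κ : ℝ)
    (o : ℕ → ℕ) : sdL D FP tp Ap P ρw Dw r g κ o = sdG N ρw Dw r g κ FP tp Ap P o (push D.P D.μ) := rfl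

/-- the source vectors of one side -/
def WSd {B' : ℕ} {R : Type} (S : Sd φ α R N) (s : Finset (Fin B')) (x : Fin B' → α) (m : ℕ) : Finset (Fin N → ℝ) :=
  WS (fun q => (S.bL m q).fr) x s

theorem cfin {k K : ℕ} {D : ED Ω φ α β N} [Fintype α] [Fintype β] {ρ η εQ ηQ c : ℝ} {tp : α → ℝ}
    {tq : β → ℝ} {Ap : α → Fin N → ℝ} {Cq : β → Fin N → ℝ} (h : EdgD D ρ η εQ ηQ c tp tq Ap Cq) {FP : α → φ}
    (hFP : ∀ ω, FP (D.P ω) = D.F ω) {FQ : β → φ} {Λ : Type} [Fintype Λ] {l : Λ → ℝ}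
    {en : Fin (k + 2 * K) → Fin (k + 2 * K) → Λ → Ω} {E : ℝ} (hr : AR D l en E) (hx : XA l en)
    (a0 b0 : Fin (k + 2 * K)) (hK1 : 0 < K)
    -- the trees
    {P ρw r S' L F b R : ℕ} {κ : ℝ} (hc : Cst N R ρw r ((1 / 2) ^ F) κ) (oL oR : ℕ → ℕ) (hSP : S' + ρw ≤ P)
    (hLP : L * P ≤ D.n) (hb : Bfr N ≤ 2 ^ b) (hFn : F ≤ D.n)
    -- START and END
    (hρ : ρ ≤ N) (hη : 0 ≤ η) (hE : E ≤ ηQ * D.n) {e₁ e₂ t : ℝ} (ht : 0 < t) (h1 : 0 < e₁ * D.n - cSE N)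
    (h2 : 2 * (N * (εQ * D.n + 3 * (N - 1))) ≤ e₂ * (e₁ * D.n - cSE N)) (h3 : 2 * η ≤ e₂ * t)
    (h4 : η * D.n + 1 + t * (N * (D.n + 2)) + cSE N ≤ e₁ * D.n)
    -- the path
    {ε κ' c1 : ℝ} (hc1 : cT N N ≤ c1) {lam I Ke : ℕ} (hR : 1 ≤ R)
    (κA κC : Λ → ℕ → ℝ) (hκA : ∀ w, l w ≠ 0 → ∀ m < L * P, 0 ≤ κA w m)
    (hκC : ∀ w, l w ≠ 0 → ∀ m < L * P, 0 ≤ κC w m) {cD K' θ : ℝ}
    (hcD : 0 ≤ cD) (hθ : 0 < θ) (hK : 0 < K')
    (hA : ∀ w, l w ≠ 0 → ∀ m < L * P, 0 ≤ m →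
      ∀ v ∈ WSd (sdL D FP tp Ap P ρw R r ((1 / 2) ^ F) κ oL) (spc k K) (fun a => D.P (en a b0 w)) m,
      ∀ G : Finset ℕ, G ⊆ range (L * P) → ∀ Z : ℕ → Multiset (Fin N → ℝ),
      (∀ t < I, Okb (fam (flr ((1 / 2) ^ F))) (2 ^ b) R R
        (WSd (sdL D FP tp Ap P ρw R r ((1 / 2) ^ F) κ oL) (spc k K) (fun a => D.P (en a b0 w)))
        (VG (WSd (sdL D.mir FQ tq Cq P ρw R r ((1 / 2) ^ F) κ oR) (spc k K) (fun b => D.Q (en a0 b w))) G)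
        m (0 + t * R) v (Z t)) →
      ∑ t ∈ range I, IZ (cw l (Fp D en a0 b0) w) (fun w => D.z (en a0 b0 w)) (fun _ => ()) (F + b + R) (F + b + R) (Z t)
        (((1 : ℝ) / 2) ^ (0 + t * R) • v) ≤
        c1 * I + κA w m + cD * (range (L * P) \ G).card)
    (hC : ∀ w, l w ≠ 0 → ∀ j < L * P, 0 ≤ j →
      ∀ v ∈ WSd (sdL D.mir FQ tq Cq P ρw R r ((1 / 2) ^ F) κ oR) (spc k K) (fun b => D.Q (en a0 b w)) j,
      ∀ G : Finset ℕ, G ⊆ range (L * P) → ∀ k₁ < Ke, ∀ Z : ℕ → Multiset (Fin N → ℝ),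
      (∀ u < lam, Okb (fam (flr ((1 / 2) ^ F))) (2 ^ b) R R
        (WSd (sdL D.mir FQ tq Cq P ρw R r ((1 / 2) ^ F) κ oR) (spc k K) (fun b => D.Q (en a0 b w)))
        (VG (WSd (sdL D FP tp Ap P ρw R r ((1 / 2) ^ F) κ oL) (spc k K) (fun a => D.P (en a b0 w))) G)
        j (0 + (u + k₁) * R) v (Z u)) →
      ∑ u ∈ range lam, IZ (cw l (Fp D en a0 b0) w) (fun w => D.z (en a0 b0 w)) (fun _ => ()) (F + b + R) (F + b + R)
        (Z u) (((1 : ℝ) / 2) ^ (0 + (u + k₁) * R) • v) ≤ c1 * lam + κC w j + cD * (range (L * P) \ G).card)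
    {δ2 : ℝ} (hKA : ∑ w, l w * ∑ m ∈ range (L * P), κA w m ≤ δ2 * K')
    (hKC : ∑ w, l w * ∑ m ∈ range (L * P), κC w m ≤ δ2 * K')
    (hlam : 0 < lam)
    (hJ : ((1 : ℝ) / 2) ^ (0 + I * R) * 2 ^ b ≤ (1 / 2) ^ F) (hKe : ((1 : ℝ) / 2) ^ (Ke * R) * 2 ^ b ≤ (1 / 2) ^ F)
    -- the level of the tubes
    (Sm : Finset ℕ) (hne : Sm.Nonempty) (hSM : ∀ m ∈ Sm, (m < L * P ∧ m % P < S') ∧ 0 + lam * R ≤ m)
    (hent : ∀ m ∈ Sm, m + (m / P : ℕ) * Real.logb 2 (Fintype.card (Rc N r)) ≤ ε * D.n)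
    (hsz : ∀ m ∈ Sm, 2 * (Kas N * 2 ^ m) ≤ (2 : ℝ) ^ (ε * D.n)) {δ4 bd : ℝ}
    (htb : nBad N r ρw L (η * D.n) + L * S' * (53248 * (((N : ℝ) + 1) * κ)) ≤ δ4 * Sm.card)
    (hbd : (1 / 2) ^ F ≤ bd)
    (hbX : N * (2 : ℝ) ^ (((0 : ℕ) : ℝ) + XY N I Ke R lam (2 ^ b) ((1 / 2) ^ F) (cP N) c1 (θ + cD * (K' / θ))
      (e₁ * D.n) (ρ * F - e₁ * D.n)) ≤ bd)
    (hbr : N * (270000 * (N * bd)) ≤ (2 : ℝ) ^ (-(κ' * D.n)))
    (hδ : 0 + (δ2 * K' / θ / Sm.card + δ4) + (e₂ + 2 * δ2 + (δ2 * K' / θ / Sm.card + δ4) +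
      N / (k + 1)) ≤ ε) :
    TubF N D.n ε 0 κ' D.μ D.F (fun ω => tp (D.P ω)) (fun ω => Ap (D.P ω)) := by
  classical
  have hms : mass l = 1 := by
    have h5 := Pool.Agent.Helper6.VS.push_mass (en a0 b0) l hr.nn
    rw [hr.pu a0 b0] at h5
    rw [← h5]
    exact h.ed.ms
  have hφ0 : (0 : ℝ) < (1 / 2) ^ F := by positivity
  have hφB : ((1 : ℝ) / 2) ^ F ≤ 2 ^ b := by
    have h5 : ((1 : ℝ) / 2) ^ F ≤ 1 := pow_le_one₀ (by norm_num) (by norm_num)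
    have h6 : (1 : ℝ) ≤ 2 ^ b := one_le_pow₀ (by norm_num)
    linarith
  have hRR : (2 : ℝ) ^ b ≤ (1 / 2) ^ F * 2 ^ (F + b + R) := by
    rw [one_div, inv_pow, pow_add, pow_add]
    have h5 : (1 : ℝ) ≤ 2 ^ R := one_le_pow₀ (by norm_num)
    have h6 : (0 : ℝ) < 2 ^ F := by positivity
    have h7 : (0 : ℝ) < 2 ^ b := by positivity
    field_simp
    nlinarith
  have hVL : ∀ (m : ℕ) (y : Lb φ (Rc N r)) (i j : Fin N),
      |((sdL D FP tp Ap P ρw R r ((1 / 2) ^ F) κ oL).B (m / P) (m % P) y).fr i j| ≤ 2 ^ b := by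
    intro m y i j
    have h5 := (hc.reg_tree (F := FP) (T := tp) (P := P) (μ := push D.P D.μ) (A := Ap) (o := oL) (m / P) (m % P) y).bnd i
    have h6 := norm_le_pi_norm (((sdL D FP tp Ap P ρw R r ((1 / 2) ^ F) κ oL).B (m / P) (m % P) y).fr i) j
    rw [Real.norm_eq_abs] at h6
    exact h6.trans (h5.trans hb)
  have hVR : ∀ (m : ℕ) (y : Lb φ (Rc N r)) (i j : Fin N),
      |((sdL D.mir FQ tq Cq P ρw R r ((1 / 2) ^ F) κ oR).B (m / P) (m % P) y).fr i j| ≤ 2 ^ b := by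
    intro m y i j
    have h5 := (hc.reg_tree (F := FQ) (T := tq) (P := P) (μ := push D.mir.P D.mir.μ) (A := Cq) (o := oR) (m / P)
      (m % P) y).bnd i
    have h6 := norm_le_pi_norm (((sdL D.mir FQ tq Cq P ρw R r ((1 / 2) ^ F) κ oR).B (m / P) (m % P) y).fr i) j
    rw [Real.norm_eq_abs] at h6
    exact h6.trans (h5.trans hb)
  have hSE := se_array' hr h.ed.ms a0 b0 h.ed.bz hρ hη h.ed.U h.ed.Q (Fp D en a0 b0) (by
      intro w w' _ _ hP hQ hF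
      unfold Fp
      simp only [Prod.mk.injEq]
      refine ⟨⟨?_, ?_⟩, hF⟩
      · funext a
        exact hP _ _
      · funext b
        exact hQ _ _) (by
      intro w w' _ _ he
      unfold Fp at he
      simp only [Prod.mk.injEq] at he
      exact he.2) hE hFn ht h1 h2 h3 h4
  refine finA (N := N) (ε := ε) (κ := κ') l hr.nn hms (Fp D en a0 b0) (fun w => D.z (en a0 b0 w)) D.μ
    (fun a w => en a b0 w) (fun a => hr.pu a b0) D.F (fun ω => tp (D.P ω)) (fun ω => Ap (D.P ω))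
    (fun m ω => (sdL D FP tp Ap P ρw R r ((1 / 2) ^ F) κ oL).nL m (D.P ω))
    (fun m y => ((sdL D FP tp Ap P ρw R r ((1 / 2) ^ F) κ oL).B (m / P) (m % P) y).a)
    (fun m y => ((sdL D FP tp Ap P ρw R r ((1 / 2) ^ F) κ oL).B (m / P) (m % P) y).o)
    (fun m y => ((sdL D FP tp Ap P ρw R r ((1 / 2) ^ F) κ oL).B (m / P) (m % P) y).fr)
    (fun m y => ((sdL D FP tp Ap P ρw R r ((1 / 2) ^ F) κ oL).B (m / P) (m % P) y).sn)
    (fun m y => (hc.reg_tree (F := FP) (T := tp) (P := P) (μ := push D.P D.μ) (A := Ap) (o := oL) (m / P)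
      (m % P) y).frOf) 270000 bd
    (fun m c c' Q => hx.swap b0 (fun ω => (sdL D FP tp Ap P ρw R r ((1 / 2) ^ F) κ oL).nL m (D.P ω)) c c' Q)
    (fun m b w => (sdL D.mir FQ tq Cq P ρw R r ((1 / 2) ^ F) κ oR).nL m (D.Q (en a0 b w)))
    (fun m y => ((sdL D.mir FQ tq Cq P ρw R r ((1 / 2) ^ F) κ oR).B (m / P) (m % P) y).fr)
    (spc k K) (spc k K) (car ⟨0, hK1⟩ 0) (car_notin _ _) ((1 / 2) ^ F) (2 ^ b) hφ0 hφB (F + b + R) (F + b + R) R R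
    le_rfl (by omega) hRR hR le_rfl c1 hc1 (L * P) (fun m _ y i j => hVL m y i j) (fun m _ y i j => hVR m y i j)
    0 0 lam I Ke κA κC hκA hκC cD K' θ hcD hθ hK hA hC (e₁ * D.n) (ρ * F - e₁ * D.n) e₂ δ2
    (fun w => SEok N F (e₁ * D.n) (ρ * F - e₁ * D.n) (cw l (Fp D en a0 b0) w) (fun w' => D.z (en a0 b0 w')))
    (fun w _ hS Z hZ _ v hv j hj => hS.1 Z hZ v hv j hj) (fun w _ hS => hS.2) hSE hKA hKC hlam hJ hKe Sm hne
    (fun m hm => ⟨(hSM m hm).1.1, (hSM m hm).2⟩) ?_ 0 δ4 ?_ ?_ hbd hbX hbr ?_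
  · intro m hm
    exact (sdL_ent h hFP oL m).trans (hent m hm)
  · intro m hm
    refine le_of_eq ?_
    unfold Pw
    refine Finset.sum_eq_zero fun ω _ => ?_
    by_cases hω : D.μ ω = 0
    · rw [hω]
      split_ifs <;> rfl
    · rw [if_neg]
      intro hn
      apply hn
      intro i
      have h5 := sdL_size h (FP := FP) (P := P) hc oL m hω i
      exact ⟨h5.1.trans (hsz m hm), h5.2.trans (hsz m hm)⟩
  · exact (sdL_out h hFP hc oL hSP hLP fun m hm => (hSM m hm).1).trans htb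
  · rw [card_spc]
    exact hδ

end

end Pool.Agent.Helper61.FW
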