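import Pool.Agent.Helper61.FW.Cfin
import Pool.Agent.Helper61.FW.OffX
import Pool.Agent.Helper61.FW.Tz
import Pool.Agent.Helper70.FW.Cfb
import Pool.Agent.Helper70.FW.Afg
import Pool.Agent.Helper78.FW.Side

/-!
# Theorem FW from the costs of one side

`COST1` : the rows of one side and the mean of their costs; `topf_of_cost1` : Theorem FW in finite form.
-/

set_option autoImplicit false

namespace Pool.Agent.Helper61.FW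

open Finset Pool.Agent.Helper69.RK Pool.Agent.Helper61.GL Pool.Agent.Helper25.FA Pool.Agent.Helper46.WF
  Pool.Agent.Helper70.FW Pool.Agent.Helper22.FW Pool.Agent.Helper58.TR Pool.Agent.Helper99.FW
  Pool.Agent.Helper58.VW Pool.Agent.Helper78.FW Pool.Agent.Helper15.VW Pool.Agent.Helper18.FW
open Pool.Agent.Helper61.EC (vfl)
open Pool.Agent.Helper9.ND (Rc)

noncomputable section

/-- the offsets are good -/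
def OffOK {Ω φ α β : Type} [Fintype Ω] [Fintype α] {N k K : ℕ} (D : ED Ω φ α β N) {Λ : Type} [Fintype Λ] (l : Λ → ℝ)
    (en : Fin (k + 2 * K) → Fin (k + 2 * K) → Λ → Ω) (b0 : Fin (k + 2 * K)) (FP : α → φ) (tp : α → ℝ)
    (Ap : α → Fin N → ℝ) (P ρw r S' Dw : ℕ) (g κ : ℝ) (L : ℕ) (δ E ηn : ℝ) (o : ℕ → ℕ) : Prop :=
  (∀ i, o i < S') ∧ ∀ a : Fin (k + 2 * K),
    ∑ i ∈ range L, ∑ s ∈ range S', ∑ mv : Option (Fin (k + 2 * K)),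
      Pw (push (row en a) l) (NCl D (push (row en a) l) b0 (EG N ρw Dw r g κ (push D.P D.μ) tp Ap) FP tp P ρw o δ
        mv i s) ≤
    4 / δ ^ 2 * (S' * (((k + 2 * K : ℕ) + 1) * (E + N + (ηn + N))))

/-- **the rows of one side and the mean of their costs** -/
def COST1 (N : ℕ) (ρ : ℝ) : Prop :=
  ∀ (b k0 : ℕ) (e τ0 : ℝ), Bfr N ≤ 2 ^ b → 0 < e → 0 < τ0 →
  ∃ C : ℝ, 1 ≤ C ∧ ∃ (κ : ℝ) (r ρw : ℕ), 53248 * (((N : ℝ) + 1) * κ) ≤ e ∧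
  (∀ g : ℝ, 0 < g → g ≤ 1 → Cst N (kR N ρ C) ρw r g κ) ∧ ∃ k K : ℕ, k0 ≤ k ∧ 1 ≤ K ∧ ∃ δ : ℝ, 0 < δ ∧
  ∃ P S' X : ℕ, 0 < S' ∧ S' + ρw ≤ P ∧ P ≤ 2 * S' ∧
  64 * 2 ^ ρw * (ρw * Real.logb 2 (Fintype.card (Rc N r))) ≤ e * P ∧
  ∃ εQ₀ : ℝ, 0 < εQ₀ ∧ ∀ ηQ : ℝ, 0 < ηQ → ∃ η₀ : ℝ, 0 < η₀ ∧ ∀ η : ℝ, 0 ≤ η → η ≤ η₀ → ∃ n₀ : ℕ,
  ∀ {Ω φ α β : Type} [Fintype Ω] [Fintype α] [Fintype β] (D : ED Ω φ α β N), n₀ ≤ D.n →
  ∀ {εQ c : ℝ}, εQ ≤ εQ₀ → ∀ {tp : α → ℝ} {tq : β → ℝ} {Ap : α → Fin N → ℝ} {Cq : β → Fin N → ℝ},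
  EdgD D ρ η εQ ηQ c tp tq Ap Cq → ∀ {FP : α → φ}, (∀ ω, FP (D.P ω) = D.F ω) → ∀ {FQ : β → φ},
  (∀ ω, FQ (D.Q ω) = D.F ω) → ∀ {Λ : Type} [Fintype Λ] {l : Λ → ℝ}
    {en : Fin (k + 2 * K) → Fin (k + 2 * K) → Λ → Ω},
  AR D l en ((k + 2 * K : ℕ) * ((2 * (k + 2 * K : ℕ) + 1) * (η * D.n))) → XA l en →
  ∀ (a0 b0 : Fin (k + 2 * K)) (oL oR : ℕ → ℕ),
  OffOK D l en b0 FP tp Ap P ρw r S' (kR N ρ C) ((1 / 2) ^ Fn ρ D.n) κ (Ln P D.n) δ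
    ((k + 2 * K : ℕ) * ((2 * (k + 2 * K : ℕ) + 1) * (η * D.n))) (η * D.n) oL →
  ∀ I : ℕ, I ≤ D.n → ∃ κA : Λ → ℕ → ℝ, (∀ w, l w ≠ 0 → ∀ m < Ln P D.n * P, 0 ≤ κA w m) ∧
    (∀ j0 : ℕ, (j0 + I * kR N ρ C + Fn ρ D.n + X ≤ Ln P D.n * P) →
      RowsOK D l en a0 b0 (sdL D FP tp Ap P ρw (kR N ρ C) r ((1 / 2) ^ Fn ρ D.n) κ oL)
        (sdL D.mir FQ tq Cq P ρw (kR N ρ C) r ((1 / 2) ^ Fn ρ D.n) κ oR) (Fn ρ D.n) b (kR N ρ C) I j0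
        (Ln P D.n * P) (kc1 N C) (kcD N ρ C) κA) ∧
    ∑ w, l w * ∑ m ∈ range (Ln P D.n * P), κA w m ≤ τ0 * D.n ^ 2 / kcD N ρ C

/-- **THEOREM FW IN FINITE FORM FROM THE COSTS OF ONE SIDE** -/
theorem topf_of_cost1 {N : ℕ} (hN : 0 < N) {ρ : ℝ} (hρ : 0 < ρ) (hρ1 : ρ ≤ 1) (hC : COST1 N ρ) :
    TOPF N ρ 0 (ρ ^ 2 / 256) := by
  intro ε hε
  obtain ⟨e, τ0, εQ1, η1, he, hτ0, hεQ1, hη1, k0, H⟩ := Pool.Agent.Helper70.FW.cfinB N hN hρ hρ1 hε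
  obtain ⟨b, hb⟩ : ∃ b : ℕ, Bfr N ≤ 2 ^ b := by
    obtain ⟨b, hb⟩ := pow_unbounded_of_one_lt (Bfr N) (one_lt_two (α := ℝ))
    exact ⟨b, hb.le⟩
  obtain ⟨C, hC1, κ, r, ρw, hκ, hCst, k, K, hk, hK, δ, hδ, P, S', X, hS', hSP, hP2, hP3, εQ₀, hεQ₀, H2⟩ :=
    hC b k0 e τ0 hb he hτ0
  refine ⟨min εQ₀ εQ1, lt_min hεQ₀ hεQ1, fun ηQ hηQ => ?_⟩
  obtain ⟨η₀, hη₀, H3⟩ := H2 ηQ hηQ
  set bE : ℝ := (k + 2 * K : ℕ) * (2 * (k + 2 * K : ℕ) + 1) with hbE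
  have hbE0 : 0 < bE := by
    have h1 : (1 : ℝ) ≤ (k + 2 * K : ℕ) := by
      have : 1 ≤ k + 2 * K := by omega
      exact_mod_cast this
    positivity
  have hw0 : (0 : ℝ) < 64 * 2 ^ ρw * (ρw + 1) := by positivity
  set η : ℝ := min (min η₀ η1) (min (e / (64 * 2 ^ ρw * (ρw + 1))) (ηQ / bE)) with hη
  have hη0 : 0 < η := lt_min (lt_min hη₀ hη1) (lt_min (div_pos he hw0) (div_pos hηQ hbE0))
  have hηa : η ≤ η₀ := (min_le_left _ _).trans (min_le_left _ _)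
  have hηb : η ≤ η1 := (min_le_left _ _).trans (min_le_right _ _)
  have hηc : η ≤ e / (64 * 2 ^ ρw * (ρw + 1)) := (min_le_right _ _).trans (min_le_left _ _)
  have hηd : η ≤ ηQ / bE := (min_le_right _ _).trans (min_le_right _ _)
  have hηc' : 64 * 2 ^ ρw * (ρw * η) ≤ e := by
    rw [le_div_iff₀ hw0] at hηc
    have h1 : (64 : ℝ) * 2 ^ ρw * (ρw * η) = η * (64 * 2 ^ ρw * (ρw + 1)) - 64 * 2 ^ ρw * η := by ring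
    have h2 : 0 ≤ (64 : ℝ) * 2 ^ ρw * η := by positivity
    linarith
  have hηd' : bE * η ≤ ηQ := by
    rw [le_div_iff₀ hbE0] at hηd
    linarith
  obtain ⟨n₀, H3⟩ := H3 η hη0.le hηa
  obtain ⟨n₁, H⟩ := H b (kc1 N C) (kc1_ge N hC1) (kR N ρ C) (kR_ge N ρ C) (kcD N ρ C) (kcD_ge hN ρ hC1) κ hκ P ρw r S'
    hSP hP2 hP3 η hη0.le hηb hηc'
  have hR6 := kR_six N ρ C
  have hP1 : 1 ≤ P := by omega
  obtain ⟨n₂, hlev⟩ := num_lev hρ hρ1 ε hε b (kR N ρ C) P X (by omega) hP1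
  refine ⟨η, hη0, max n₀ (max n₁ n₂), ?_⟩
  intro n hn Ω φ _ μ F T T' A Cc z c hE
  obtain ⟨hl1, hl2, -⟩ := hlev n ((le_max_right _ _).trans ((le_max_right _ _).trans hn))
  have hn0 : n₀ ≤ n := (le_max_left _ _).trans hn
  have hn1 : n₁ ≤ n := (le_max_left _ _).trans ((le_max_right _ _).trans hn)
  have h := ofE_EdgD hE
  set D : ED Ω φ (Pnt F T A) (Pnt F T' Cc) N := ofE μ F T T' A Cc z c n with hD
  have hK0 : 0 < k + 2 * K := by omega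
  let i0 : Fin (k + 2 * K) := ⟨0, hK0⟩
  have hr := h.arr (ιr := Fin (k + 2 * K)) i0
  rw [Fintype.card_fin] at hr
  have hx := arr_XA D (ιr := Fin (k + 2 * K)) i0
  have hFP : ∀ ω, pF (D.P ω) = D.F ω := fun _ => rfl
  have hFQ : ∀ ω, pF (D.Q ω) = D.F ω := fun _ => rfl
  obtain ⟨oL, hoL, hoL2⟩ := off_all h hFP hr hx i0 hη0.le P ρw r S' (kR N ρ C) ((1 / 2) ^ Fn ρ D.n) κ hS' hSP
    (Ln P D.n) hδ
  obtain ⟨oR, hoR, hoR2⟩ := off_all h.mir (D := D.mir) hFQ hr.mir hx.mir i0 hη0.le P ρw r S' (kR N ρ C)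
    ((1 / 2) ^ Fn ρ D.n) κ hS' hSP (Ln P D.n) hδ
  have hI1 : In ρ b (kR N ρ C) n ≤ n := by
    have h1 : In ρ b (kR N ρ C) n ≤ (lamn ε (kR N ρ C) n + In ρ b (kR N ρ C) n) * kR N ρ C := by
      calc In ρ b (kR N ρ C) n ≤ In ρ b (kR N ρ C) n * kR N ρ C := Nat.le_mul_of_pos_right _ (by omega)
        _ ≤ _ := Nat.mul_le_mul_right _ (Nat.le_add_left _ _)
    omega
  have hI2 : lamn ε (kR N ρ C) n ≤ n := by
    have h1 : lamn ε (kR N ρ C) n ≤ (lamn ε (kR N ρ C) n + In ρ b (kR N ρ C) n) * kR N ρ C := by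
      calc lamn ε (kR N ρ C) n ≤ lamn ε (kR N ρ C) n * kR N ρ C := Nat.le_mul_of_pos_right _ (by omega)
        _ ≤ _ := Nat.mul_le_mul_right _ (Nat.le_add_right _ _)
    omega
  obtain ⟨κA, hA0, hA1, hA2⟩ := H3 D hn0 (min_le_left _ _) h hFP hFQ hr hx i0 i0 oL oR ⟨hoL, hoL2⟩
    (In ρ b (kR N ρ C) n) hI1
  obtain ⟨κC, hC0, hC1', hC2⟩ := H3 D.mir hn0 (min_le_left _ _) h.mir hFQ hFP hr.mir hx.mir i0 i0 oR oL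
    ⟨hoR, hoR2⟩ (lamn ε (kR N ρ C) n) hI2
  have hmul : (lamn ε (kR N ρ C) n + In ρ b (kR N ρ C) n) * kR N ρ C =
      lamn ε (kR N ρ C) n * kR N ρ C + In ρ b (kR N ρ C) n * kR N ρ C := by ring
  have hEQ : (k + 2 * K : ℕ) * ((2 * (k + 2 * K : ℕ) + 1) * (η * n)) ≤ ηQ * n := by
    have h1 : ((k + 2 * K : ℕ) : ℝ) * ((2 * ((k + 2 * K : ℕ) : ℝ) + 1) * (η * n)) = (bE * η) * n := by
      rw [hbE]
      ring
    rw [h1]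
    exact mul_le_mul_of_nonneg_right hηd' (Nat.cast_nonneg n)
  have hg : Cst N (kR N ρ C) ρw r ((1 / 2) ^ Fn ρ n) κ :=
    hCst _ (by positivity) (pow_le_one₀ (by norm_num) (by norm_num))
  exact H (D := D) hn1 (min_le_right _ _) h hFP (FQ := pF) hr hx i0 i0 (by omega) hk hg oL oR hb hEQ κA κC hA0 hC0
    (RowsOK.hA (hA1 0 (by
      show 0 + In ρ b (kR N ρ C) n * kR N ρ C + Fn ρ n + X ≤ Ln P n * P
      rw [hmul] at hl1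
      omega)))
    (RowsOK.hC fun k₁ hk₁ => hC1' (k₁ * kR N ρ C) (by
      show k₁ * kR N ρ C + lamn ε (kR N ρ C) n * kR N ρ C + Fn ρ n + X ≤ Ln P n * P
      rw [hmul] at hl1
      have h1 : k₁ * kR N ρ C ≤ In ρ b (kR N ρ C) n * kR N ρ C := Nat.mul_le_mul_right _ hk₁.le
      omega)) hA2 hC2

end

end Pool.Agent.Helper61.FW
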