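import Pool.Agent.Helper61.FW.Cx
import Pool.Agent.Helper62.FW.Rec
import Pool.Agent.Helper82.FW.Dig

/-!
# Numbers of one side of an edge law

for the recorded tree `sdL`: points in the tubes, good nodes, entropy of the nodes, sizes of the lines.
-/

set_option autoImplicit false

namespace Pool.Agent.Helper61.FW

open Finset Pool.Agent.Helper69.RK Pool.Agent.Helper61.GL Pool.Agent.Helper25.FA Pool.Agent.Helper46.WF
  Pool.Agent.Helper70.FW Pool.Agent.Helper22.FW Pool.Agent.Helper58.TR Pool.Agent.Helper99.FW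
  Pool.Agent.Helper58.VW
open Pool.Agent.Helper61.EC (vfl)
open Pool.Agent.Helper9.ND (Rc)

noncomputable section

variable {Ω φ α β : Type} [Fintype Ω] {N : ℕ} {D : ED Ω φ α β N} [Fintype α] {ρ η εQ ηQ c : ℝ} {tp : α → ℝ}
  {tq : β → ℝ} {Ap : α → Fin N → ℝ} {Cq : β → Fin N → ℝ} (h : EdgD D ρ η εQ ηQ c tp tq Ap Cq) {FP : α → φ}
  (hFP : ∀ ω, FP (D.P ω) = D.F ω)

include h

theorem pu_nn (x : α) : 0 ≤ push D.P D.μ x := Pool.Agent.Helper31.EC.push_nn _ _ h.ed.nn x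

omit h in
theorem pu_ne {x : α} (hx : push D.P D.μ x ≠ 0) : ∃ ω, D.μ ω ≠ 0 ∧ D.P ω = x := push_ne D.P D.μ x hx

theorem pu_T {x : α} (hx : push D.P D.μ x ≠ 0) : 0 ≤ tp x ∧ tp x < 1 := by
  obtain ⟨ω, _, rfl⟩ := pu_ne hx
  exact h.ed.bT ω

theorem pu_A {x : α} (hx : push D.P D.μ x ≠ 0) : ‖Ap x‖ ≤ 1 := by
  obtain ⟨ω, _, rfl⟩ := pu_ne hx
  exact (pi_norm_le_iff_of_nonneg zero_le_one).mpr fun i => h.ed.bA ω i

theorem pu_ms : ∑ x, push D.P D.μ x = 1 := by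
  have h1 := h.ed.ms
  have h2 := Pool.Agent.Helper6.VS.push_mass D.P D.μ h.ed.nn
  exact h2.trans h1

/-- the cells of the time of a vertex are full -/
theorem cl_low {m : ℕ} (hm : m ≤ D.n) : m - η * D.n ≤ CH D.μ (fun ω => cl m (tp (D.P ω))) D.F := by
  have e1 := h.r1
  have e2 := ch_chain D.μ (fun ω => cl m (tp (D.P ω))) (fun ω => cl D.n (tp (D.P ω))) D.F
  have e3 := ch_window_le D.μ h.ed.nn (fun ω => tp (D.P ω)) (fun ω => (cl m (tp (D.P ω)), D.F ω)) m (D.n - m)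
      (fun x y _ _ h => (Prod.ext_iff.1 h).1)
  rw [Nat.add_sub_cancel' hm, h.ed.ms, mul_one, Nat.cast_sub hm] at e3
  have e4 : CH D.μ (fun ω => (cl m (tp (D.P ω)), cl D.n (tp (D.P ω)))) D.F = CH D.μ (fun ω => cl D.n (tp (D.P ω))) D.F := by
    apply ch_congr_left
    intro x y _ _ _
    simp only [Prod.mk.injEq]
    exact ⟨fun h => h.2, fun h => ⟨cl_of_le hm h, h⟩⟩
  have e5 : CH D.μ (fun ω => cl D.n (tp (D.P ω))) D.F = CH D.μ (fun ω => fl D.n (tp (D.P ω))) D.F := rfl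
  linarith

include hFP

theorem cl_low' {m : ℕ} (hm : m ≤ D.n) : m - η * D.n ≤ CH (push D.P D.μ) (fun x => cl m (tp x)) FP := by
  rw [push_CH]
  have e : CH D.μ (fun ω => cl m (tp (D.P ω))) (fun ω => FP (D.P ω)) = CH D.μ (fun ω => cl m (tp (D.P ω))) D.F := by
    congr 1
    funext ω
    exact hFP ω
  rw [e]
  exact cl_low h hm

omit h hFP in
/-- sum over node levels -/
theorem sum_lv {P L S : ℕ} (hS : S ≤ P) (f : ℕ → ℕ → ℝ) (hf : ∀ i s, 0 ≤ f i s) {Sm : Finset ℕ}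
    (hSm : ∀ m ∈ Sm, m < L * P ∧ m % P < S) : ∑ m ∈ Sm, f (m / P) (m % P) ≤ ∑ i ∈ range L, ∑ s ∈ range S, f i s := by
  classical
  rw [← Pool.Agent.Helper82.FW.sum_filter_lt L P S hS f]
  refine Finset.sum_le_sum_of_subset_of_nonneg ?_ fun i _ _ => hf _ _
  intro m hm
  obtain ⟨h1, h2⟩ := hSm m hm
  exact mem_filter.mpr ⟨mem_range.mpr h1, h2⟩

omit h hFP in
theorem sdL_nL {P ρw Dw r : ℕ} {g κ : ℝ} {o : ℕ → ℕ} (m : ℕ) (q : α) :
    (sdL D FP tp Ap P ρw Dw r g κ o).nL m q =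
      nd (EG N ρw Dw r g κ (push D.P D.μ) tp Ap) FP tp P o (m / P) (m % P) q := rfl

omit h hFP in
theorem sdL_bL {P ρw Dw r : ℕ} {g κ : ℝ} {o : ℕ → ℕ} (m : ℕ) (q : α) :
    (sdL D FP tp Ap P ρw Dw r g κ o).bL m q =
      bG N ρw Dw r g κ FP tp P (push D.P D.μ) Ap o (m / P) (m % P)
        (nd (EG N ρw Dw r g κ (push D.P D.μ) tp Ap) FP tp P o (m / P) (m % P) q) := rfl

/-- the numbers of bad nodes -/
def nBad (N r ρw L : ℕ) (ηn : ℝ) : ℝ := 64 * 2 ^ ρw * (ρw * (ηn + L * Real.logb 2 (Fintype.card (Rc N r))))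

/-- **most points are in their tubes** -/
theorem sdL_out {P ρw Dw r S L : ℕ} {g κ : ℝ} (hc : Cst N Dw ρw r g κ) (o : ℕ → ℕ) (hSP : S + ρw ≤ P)
    (hL : L * P ≤ D.n) {Sm : Finset ℕ} (hSm : ∀ m ∈ Sm, m < L * P ∧ m % P < S) :
    ∑ m ∈ Sm, Pw D.μ (fun ω => 270000 < ((sdL D FP tp Ap P ρw Dw r g κ o).bL m (D.P ω)).sn
      (Ap (D.P ω) - tp (D.P ω) • ((sdL D FP tp Ap P ρw Dw r g κ o).bL m (D.P ω)).a -
        ((sdL D FP tp Ap P ρw Dw r g κ o).bL m (D.P ω)).o)) ≤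
    nBad N r ρw L (η * D.n) + L * S * (53248 * (((N : ℝ) + 1) * κ)) := by
  classical
  have h1 := sum_lv (by omega : S ≤ P) (fun i s => Pw (push D.P D.μ) (fun x => 270000 <
      ‖(bG N ρw Dw r g κ FP tp P (push D.P D.μ) Ap o i s
        (nd (EG N ρw Dw r g κ (push D.P D.μ) tp Ap) FP tp P o i s x)).dev (tp x) (Ap x)‖))
      (fun i s => by
        unfold Pw
        exact Finset.sum_nonneg fun x _ => by split_ifs <;> [exact pu_nn h x; exact le_rfl]) hSm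
  have h2 := hc.out_tree (F := FP) (P := P) (o := o) (S := S) (fun x => pu_nn h x) (pu_ms h) (fun x hx => pu_T h hx)
    (fun x hx => pu_A h hx) hSP L
  have h3 := cl_low' h hFP hL
  have h4 : 0 ≤ 64 * 2 ^ ρw * (ρw : ℝ) := by positivity
  refine le_trans (le_of_eq ?_) (h1.trans (h2.trans ?_))
  · refine Finset.sum_congr rfl fun m _ => ?_
    rw [Pool.Agent.Helper78.FW.finT_push]
    rfl
  · unfold nBad
    have h5 : (L : ℝ) * P + L * Real.logb 2 (Fintype.card (Rc N r)) -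
        CH (push D.P D.μ) (fun x => cl (L * P) (tp x)) FP ≤
        η * D.n + L * Real.logb 2 (Fintype.card (Rc N r)) := by
      push_cast at h3
      linarith
    have h6 := mul_le_mul_of_nonneg_left h5 h4
    nlinarith [h6]

/-- **most nodes are nodes** -/
theorem sdL_nd {P ρw Dw r S L : ℕ} {g κ : ℝ} (hDρ : Dw ≤ ρw) (o : ℕ → ℕ) (hSP : S + ρw ≤ P)
    (hL : L * P ≤ D.n) {Sm : Finset ℕ} (hSm : ∀ m ∈ Sm, m < L * P ∧ m % P < S) :
    ∑ m ∈ Sm, Pw D.μ (fun ω => ¬ IsNd (cw (push D.P D.μ) ((sdL D FP tp Ap P ρw Dw r g κ o).nL m) (D.P ω)) tp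
      m Dw ρw (cl m (tp (D.P ω)))) ≤
    nBad N r ρw L (η * D.n) := by
  classical
  have h1 := sum_lv (by omega : S ≤ P) (fun i s => Pw (push D.P D.μ) (fun x => ¬ IsNd (cw (push D.P D.μ)
        (nd (EG N ρw Dw r g κ (push D.P D.μ) tp Ap) FP tp P o i s) x) tp (i * P + s) Dw ρw (cl (i * P + s) (tp x))))
      (fun i s => by
        unfold Pw
        exact Finset.sum_nonneg fun x _ => by split_ifs <;> [exact pu_nn h x; exact le_rfl]) hSm
  have h2 := not_nd_tree (N := N) (r := r) (g := g) (κ := κ) (F := FP) (P := P) (o := o) (A := Ap) (S := S)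
    (fun x => pu_nn h x) (pu_ms h) (fun x hx => pu_T h hx) hDρ hSP L
  have h3 := cl_low' h hFP hL
  have h4 : 0 ≤ 64 * 2 ^ ρw * (ρw : ℝ) := by positivity
  refine le_trans (le_of_eq ?_) (h1.trans (h2.trans ?_))
  · refine Finset.sum_congr rfl fun m _ => ?_
    rw [Pool.Agent.Helper78.FW.finT_push, Nat.div_add_mod' m P]
    rfl
  · unfold nBad
    have h5 : (L : ℝ) * P + L * Real.logb 2 (Fintype.card (Rc N r)) -
        CH (push D.P D.μ) (fun x => cl (L * P) (tp x)) FP ≤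
        η * D.n + L * Real.logb 2 (Fintype.card (Rc N r)) := by
      push_cast at h3
      linarith
    have h6 := mul_le_mul_of_nonneg_left h5 h4
    nlinarith [h6]

/-- **entropy of the nodes** -/
theorem sdL_ent {P ρw Dw r : ℕ} {g κ : ℝ} (o : ℕ → ℕ) (m : ℕ) :
    CH D.μ (fun ω => (sdL D FP tp Ap P ρw Dw r g κ o).nL m (D.P ω)) D.F ≤
      m + (m / P : ℕ) * Real.logb 2 (Fintype.card (Rc N r)) := by
  classical
  have : Nonempty (Rc N r) := ⟨Pool.Agent.Helper9.ND.rc r 0⟩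
  have h1 := Pool.Agent.Helper62.FW.ch_nd (EG N ρw Dw r g κ (push D.P D.μ) tp Ap) FP tp P o D.μ h.ed.nn D.P D.F
    (m / P) (m % P) (fun ω ω' _ _ he => by rw [hFP, hFP]; exact he) (fun ω _ => (h.ed.bT ω).1)
    (fun ω _ => (h.ed.bT ω).2)
  rw [h.ed.ms, mul_one] at h1
  refine h1.trans (le_of_eq ?_)
  congr 1
  exact_mod_cast Nat.div_add_mod' m P

omit hFP in
/-- **sizes of the lines** -/
theorem sdL_size {P ρw Dw r : ℕ} {g κ : ℝ} (hc : Cst N Dw ρw r g κ) (o : ℕ → ℕ) (m : ℕ) {ω : Ω} (hω : D.μ ω ≠ 0)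
    (i : Fin N) : |((sdL D FP tp Ap P ρw Dw r g κ o).bL m (D.P ω)).a i| ≤ 2 * (Kas N * 2 ^ m) ∧
      |((sdL D FP tp Ap P ρw Dw r g κ o).bL m (D.P ω)).o i| ≤ 2 * (Kas N * 2 ^ m) := by
  have hq : push D.P D.μ (D.P ω) ≠ 0 := push_ne' D.P D.μ h.ed.nn hω
  have hm : m / P * P + m % P = m := Nat.div_add_mod' m P
  have hK : 0 ≤ Kas N * 2 ^ m := mul_nonneg kas_nonneg (by positivity)
  have h1 := (hc.reg_tree (F := FP) (T := tp) (P := P) (μ := push D.P D.μ) (A := Ap) (o := o) (m / P) (m % P)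
    (nd (EG N ρw Dw r g κ (push D.P D.μ) tp Ap) FP tp P o (m / P) (m % P) (D.P ω))).slo
  have h2 := hc.off_tree (F := FP) (P := P) (o := o) (fun x => pu_nn h x)
    (fun x hx => abs_le.mpr ⟨by linarith [(pu_T h hx).1], (pu_T h hx).2.le⟩)
    (fun x hx => pu_A h hx) (m / P) (m % P) hq
  rw [hm] at h1 h2
  constructor
  · have h3 := norm_le_pi_norm ((sdL D FP tp Ap P ρw Dw r g κ o).bL m (D.P ω)).a i
    rw [Real.norm_eq_abs] at h3
    exact h3.trans (h1.trans (by linarith))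
  · have h3 := norm_le_pi_norm ((sdL D FP tp Ap P ρw Dw r g κ o).bL m (D.P ω)).o i
    rw [Real.norm_eq_abs] at h3
    exact h3.trans h2

end

end Pool.Agent.Helper61.FW
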