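import Pool.Agent.Helper61.FW.Cfin
import Pool.Agent.Helper70.FW.CoB

/-!
# Theorem FW in finite form from the costs of the rows, all numbers of the path chosen

`finB` of Helper70 for the array and the recorded trees.
-/

set_option autoImplicit false

namespace Pool.Agent.Helper61.FW

open Finset Pool.Agent.Helper69.RK Pool.Agent.Helper61.GL Pool.Agent.Helper25.FA Pool.Agent.Helper46.WF
  Pool.Agent.Helper70.FW Pool.Agent.Helper22.FW Pool.Agent.Helper58.TR Pool.Agent.Helper99.FW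
  Pool.Agent.Helper58.VW Pool.Agent.Helper78.FW Pool.Agent.Helper15.VW Pool.Agent.Helper18.FW
open Pool.Agent.Helper61.EC (vfl)
open Pool.Agent.Helper9.ND (Rc)

noncomputable section

/-- **the hypothesis on the rows** (one side): costs `κA` of the levels -/
def RowH {Ω φ α β : Type} [Fintype Ω] {N k K : ℕ} (D : ED Ω φ α β N) {Λ : Type} [Fintype Λ] (l : Λ → ℝ)
    (en : Fin (k + 2 * K) → Fin (k + 2 * K) → Λ → Ω) (a0 b0 : Fin (k + 2 * K)) {Rl Rr : Type} (SL : Sd φ α Rl N)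
    (SR : Sd φ β Rr N) (φ' B : ℝ) (g R0 R M I j0 : ℕ) (c1 cD : ℝ) (κA : Λ → ℕ → ℝ) : Prop :=
  ∀ w, l w ≠ 0 → ∀ m < M, ∀ v ∈ WSd SL (spc k K) (fun a => D.P (en a b0 w)) m,
    ∀ G : Finset ℕ, G ⊆ range M → ∀ Z : ℕ → Multiset (Fin N → ℝ),
    (∀ t < I, Okb (fam (flr φ')) B R R (WSd SL (spc k K) (fun a => D.P (en a b0 w)))
      (VG (WSd SR (spc k K) (fun b => D.Q (en a0 b w))) G) m (j0 + t * R) v (Z t)) →
    ∑ t ∈ range I, IZ (cw l (Fp D en a0 b0) w) (fun w => D.z (en a0 b0 w)) (fun _ => ()) g R0 (Z t)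
      (((1 : ℝ) / 2) ^ (j0 + t * R) • v) ≤ c1 * I + κA w m + cD * (range M \ G).card

/-- the label of the mirrored array -/
theorem fp_mir {Ω φ α β : Type} [Fintype Ω] {N k K : ℕ} (D : ED Ω φ α β N) {Λ : Type} [Fintype Λ] (l : Λ → ℝ)
    (en : Fin (k + 2 * K) → Fin (k + 2 * K) → Λ → Ω) (a0 b0 : Fin (k + 2 * K)) {w : Λ} (hw : l w ≠ 0) :
    cw l (Fp D.mir (fun b a => en a b) b0 a0) w = cw l (Fp D en a0 b0) w := by
  refine cw_lab l _ _ (fun w w' _ _ => ?_) hw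
  unfold Fp
  simp only [Prod.mk.injEq]
  constructor
  · rintro ⟨⟨h1, h2⟩, h3⟩
    exact ⟨⟨h2, h1⟩, h3⟩
  · rintro ⟨⟨h1, h2⟩, h3⟩
    exact ⟨⟨h2, h1⟩, h3⟩

/-- the right side from the mirrored rows -/
theorem rowH_mir {Ω φ α β : Type} [Fintype Ω] {N k K : ℕ} (D : ED Ω φ α β N) {Λ : Type} [Fintype Λ] {l : Λ → ℝ}
    {en : Fin (k + 2 * K) → Fin (k + 2 * K) → Λ → Ω} {a0 b0 : Fin (k + 2 * K)} {Rl Rr : Type} {SL : Sd φ α Rl N}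
    {SR : Sd φ β Rr N} {φ' B : ℝ} {g R0 R M lam Ke : ℕ} {c1 cD : ℝ} {κC : Λ → ℕ → ℝ}
    (h : ∀ k₁ < Ke, RowH D.mir l (fun b a => en a b) b0 a0 SR SL φ' B g R0 R M lam (k₁ * R) c1 cD κC) :
    ∀ w, l w ≠ 0 → ∀ j < M, 0 ≤ j → ∀ v ∈ WSd SR (spc k K) (fun b => D.Q (en a0 b w)) j,
      ∀ G : Finset ℕ, G ⊆ range M → ∀ k₁ < Ke, ∀ Z : ℕ → Multiset (Fin N → ℝ),
      (∀ u < lam, Okb (fam (flr φ')) B R R (WSd SR (spc k K) (fun b => D.Q (en a0 b w)))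
        (VG (WSd SL (spc k K) (fun a => D.P (en a b0 w))) G) j (0 + (u + k₁) * R) v (Z u)) →
      ∑ u ∈ range lam, IZ (cw l (Fp D en a0 b0) w) (fun w => D.z (en a0 b0 w)) (fun _ => ()) g R0
        (Z u) (((1 : ℝ) / 2) ^ (0 + (u + k₁) * R) • v) ≤ c1 * lam + κC w j + cD * (range M \ G).card := by
  intro w hw j hj _ v hv G hG k₁ hk₁ Z hZ
  have e : ∀ u : ℕ, 0 + (u + k₁) * R = k₁ * R + u * R := fun u => by ring
  have h1 := h k₁ hk₁ w hw j hj v hv G hG Z (fun u hu => by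
    have h2 := hZ u hu
    rw [e u] at h2
    exact h2)
  rw [fp_mir D l en a0 b0 hw] at h1
  refine le_trans (le_of_eq ?_) h1
  refine Finset.sum_congr rfl fun u _ => ?_
  rw [e u]
  rfl

/-- **THEOREM FW FROM THE COSTS OF THE ROWS**, all numbers of the path chosen -/
theorem cfinB (N : ℕ) {ρ : ℝ} (hρ : 0 < ρ) (hρ1 : ρ ≤ 1) (hN : 0 < N) (ε : ℝ) (hε : 0 < ε) :
    ∃ e τ0 : ℝ, 0 < e ∧ 0 < τ0 ∧ ∃ k0 : ℕ, ∀ (b : ℕ), Bfr N ≤ 2 ^ b → ∀ (c1 : ℝ), cT N N ≤ c1 → ∀ R : ℕ,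
    aR1 N ρ * c1 + aR2 N ρ ≤ R → ∀ cD : ℝ, 1 ≤ cD → ∀ P S' : ℕ, 1 ≤ P → S' ≤ P → P ≤ 2 * S' →
    ∀ r : ℕ, Real.logb 2 (Fintype.card (Rc N r)) ≤ P → ∃ n0 : ℕ,
    ∀ {Ω φ α β Λ : Type} [Fintype Ω] [Fintype α] [Fintype β] [Fintype Λ] {k K : ℕ} (D : ED Ω φ α β N),
    n0 ≤ D.n → k0 ≤ k → 0 < K → ∀ {η εQ ηQ c : ℝ} {tp : α → ℝ} {tq : β → ℝ} {Ap : α → Fin N → ℝ}
    {Cq : β → Fin N → ℝ} (_ : EdgD D ρ η εQ ηQ c tp tq Ap Cq) {FP : α → φ} (_ : ∀ ω, FP (D.P ω) = D.F ω)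
    {FQ : β → φ} (_ : ∀ ω, FQ (D.Q ω) = D.F ω) {l : Λ → ℝ} {en : Fin (k + 2 * K) → Fin (k + 2 * K) → Λ → Ω} {E : ℝ}
    (_ : AR D l en E) (_ : XA l en) (a0 b0 : Fin (k + 2 * K)) {ρw : ℕ} {κ : ℝ}
    (_ : Cst N R ρw r ((1 / 2) ^ Fn ρ D.n) κ) (oL oR : ℕ → ℕ) (_ : S' + ρw ≤ P)
    (_ : Ln P D.n * P ≤ D.n) (_ : 0 ≤ η) (_ : E ≤ ηQ * D.n) {t : ℝ} (_ : 0 < t) (_ : 0 < e * D.n - cSE N)
    (_ : 2 * (N * (εQ * D.n + 3 * (N - 1))) ≤ e * (e * D.n - cSE N)) (_ : 2 * η ≤ e * t)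
    (_ : η * D.n + 1 + t * (N * (D.n + 2)) + cSE N ≤ e * D.n)
    (κA κC : Λ → ℕ → ℝ) (_ : ∀ w, l w ≠ 0 → ∀ m < Ln P D.n * P, 0 ≤ κA w m)
    (_ : ∀ w, l w ≠ 0 → ∀ m < Ln P D.n * P, 0 ≤ κC w m)
    (_ : RowH D l en a0 b0 (sdL D FP tp Ap P ρw R r ((1 / 2) ^ Fn ρ D.n) κ oL)
      (sdL D.mir FQ tq Cq P ρw R r ((1 / 2) ^ Fn ρ D.n) κ oR) ((1 / 2) ^ Fn ρ D.n) (2 ^ b) (Fn ρ D.n + b + R)
      (Fn ρ D.n + b + R) R (Ln P D.n * P) (In ρ b R D.n) 0 c1 cD κA)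
    (_ : ∀ k₁ < In ρ b R D.n, RowH D.mir l (fun b a => en a b) b0 a0
      (sdL D.mir FQ tq Cq P ρw R r ((1 / 2) ^ Fn ρ D.n) κ oR)
      (sdL D FP tp Ap P ρw R r ((1 / 2) ^ Fn ρ D.n) κ oL) ((1 / 2) ^ Fn ρ D.n) (2 ^ b) (Fn ρ D.n + b + R)
      (Fn ρ D.n + b + R) R (Ln P D.n * P) (lamn ε R D.n) (k₁ * R) c1 cD κC)
    (_ : ∑ w, l w * ∑ m ∈ range (Ln P D.n * P), κA w m ≤ τ0 * D.n ^ 2 / cD)
    (_ : ∑ w, l w * ∑ m ∈ range (Ln P D.n * P), κC w m ≤ τ0 * D.n ^ 2 / cD)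
    (_ : nBad N r ρw (Ln P D.n) (η * D.n) + Ln P D.n * S' * (53248 * (((N : ℝ) + 1) * κ)) ≤ e * D.n),
    TubF N D.n ε 0 (ρ ^ 2 / 256) D.μ D.F (fun ω => tp (D.P ω)) (fun ω => Ap (D.P ω)) := by
  classical
  obtain ⟨e, τ0, he, hτ0, k0, H⟩ := finB N hρ hρ1 ε hε
  refine ⟨e, τ0, he, hτ0, k0, fun b hb c1 hc1 R hR cD hcD P S' hP hS hS2 r hr => ?_⟩
  obtain ⟨n0, H⟩ := H b c1 hc1 R hR R le_rfl cD hcD P S' hP hS hS2 270000 (Real.logb 2 (Fintype.card (Rc N r)))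
    (2 * Kas N) 0 (by norm_num) hr
  refine ⟨n0, ?_⟩
  intro Ω φ α β Λ _ _ _ _ k K D hn hk hK η εQ ηQ c tp tq Ap Cq h FP hFP FQ hFQ l en E hr' hx a0 b0 ρw κ hc oL oR hSP
    hLP hη hE t ht h1 h2 h3 h4 κA κC hκA hκC hA hC hKA hKC hout
  have hms : mass l = 1 := by
    have h5 := Pool.Agent.Helper6.VS.push_mass (en a0 b0) l hr'.nn
    rw [hr'.pu a0 b0] at h5
    rw [← h5]
    exact h.ed.ms
  have hNr : (1 : ℝ) ≤ N := by exact_mod_cast hN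
  have hVL : ∀ (m : ℕ) (y : Lb φ (Rc N r)) (i j : Fin N),
      |((sdL D FP tp Ap P ρw R r ((1 / 2) ^ Fn ρ D.n) κ oL).B (m / P) (m % P) y).fr i j| ≤ 2 ^ b := by
    intro m y i j
    have h5 := (hc.reg_tree (F := FP) (T := tp) (P := P) (μ := push D.P D.μ) (A := Ap) (o := oL) (m / P) (m % P) y).bnd i
    have h6 := norm_le_pi_norm (((sdL D FP tp Ap P ρw R r ((1 / 2) ^ Fn ρ D.n) κ oL).B (m / P) (m % P) y).fr i) j
    rw [Real.norm_eq_abs] at h6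
    exact h6.trans (h5.trans hb)
  have hVR : ∀ (m : ℕ) (y : Lb φ (Rc N r)) (i j : Fin N),
      |((sdL D.mir FQ tq Cq P ρw R r ((1 / 2) ^ Fn ρ D.n) κ oR).B (m / P) (m % P) y).fr i j| ≤ 2 ^ b := by
    intro m y i j
    have h5 := (hc.reg_tree (F := FQ) (T := tq) (P := P) (μ := push D.mir.P D.mir.μ) (A := Cq) (o := oR) (m / P)
      (m % P) y).bnd i
    have h6 := norm_le_pi_norm (((sdL D.mir FQ tq Cq P ρw R r ((1 / 2) ^ Fn ρ D.n) κ oR).B (m / P) (m % P) y).fr i) j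
    rw [Real.norm_eq_abs] at h6
    exact h6.trans (h5.trans hb)
  have hSE := se_array' (e₁ := e) (e₂ := e) hr' h.ed.ms a0 b0 h.ed.bz (by linarith) hη h.ed.U h.ed.Q
    (Fp D en a0 b0) (by
      intro w w' _ _ hP hQ hF
      unfold Fp
      simp only [Prod.mk.injEq]
      refine ⟨⟨?_, ?_⟩, hF⟩
      · funext a
        exact hP _ _
      · funext b
        exact hQ _ _) (by
      intro w w' _ _ he
      unfold Fp at he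
      simp only [Prod.mk.injEq] at he
      exact he.2) hE (Fn_le hρ1 D.n) ht h1 h2 h3 h4
  refine H D.n hn l hr'.nn hms (Fp D en a0 b0) (fun w => D.z (en a0 b0 w)) D.μ
    (fun a w => en a b0 w) (fun a => hr'.pu a b0) D.F (fun ω => tp (D.P ω)) (fun ω => Ap (D.P ω))
    (fun m ω => (sdL D FP tp Ap P ρw R r ((1 / 2) ^ Fn ρ D.n) κ oL).nL m (D.P ω))
    (fun m y => ((sdL D FP tp Ap P ρw R r ((1 / 2) ^ Fn ρ D.n) κ oL).B (m / P) (m % P) y).a)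
    (fun m y => ((sdL D FP tp Ap P ρw R r ((1 / 2) ^ Fn ρ D.n) κ oL).B (m / P) (m % P) y).o)
    (fun m y => ((sdL D FP tp Ap P ρw R r ((1 / 2) ^ Fn ρ D.n) κ oL).B (m / P) (m % P) y).fr)
    (fun m y => ((sdL D FP tp Ap P ρw R r ((1 / 2) ^ Fn ρ D.n) κ oL).B (m / P) (m % P) y).sn)
    (fun m y => (hc.reg_tree (F := FP) (T := tp) (P := P) (μ := push D.P D.μ) (A := Ap) (o := oL) (m / P)
      (m % P) y).frOf)
    (fun m c c' Q => hx.swap b0 (fun ω => (sdL D FP tp Ap P ρw R r ((1 / 2) ^ Fn ρ D.n) κ oL).nL m (D.P ω)) c c' Q)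
    (fun m b w => (sdL D.mir FQ tq Cq P ρw R r ((1 / 2) ^ Fn ρ D.n) κ oR).nL m (D.Q (en a0 b w)))
    (fun m y => ((sdL D.mir FQ tq Cq P ρw R r ((1 / 2) ^ Fn ρ D.n) κ oR).B (m / P) (m % P) y).fr)
    (spc k K) (spc k K) (car ⟨0, hK⟩ 0) (car_notin _ _) (by rw [card_spc]; exact hk) (Fn ρ D.n + b + R)
    (Fn ρ D.n + b + R) le_rfl (by omega) (by omega) (fun m _ y i j => hVL m y i j) (fun m _ y i j => hVR m y i j)
    κA κC hκA hκC (fun w hw m hm _ v hv G hG Z hZ => hA w hw m hm v hv G hG Z hZ) (rowH_mir D hC) hSE hKA hKC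
    (fun m _ => ?_) (fun m _ _ ω hω i => ?_) ?_
  · have h5 := sdL_ent h hFP (P := P) (ρw := ρw) (Dw := R) (r := r) (g := (1 / 2) ^ Fn ρ D.n) (κ := κ) oL m
    simpa using h5
  · have h5 := sdL_size h (FP := FP) (P := P) hc oL m hω i
    constructor
    · refine h5.1.trans (le_of_eq (by ring))
    · refine h5.2.trans (le_of_eq (by ring))
  · refine le_trans ?_ hout
    exact sdL_out h hFP hc oL hSP hLP fun m hm => by
      rw [mem_filter, mem_range] at hm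
      exact hm

end

end Pool.Agent.Helper61.FW
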