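import Pool.Agent.Helper22.FW.NumT
import Pool.Agent.Helper61.FW.Cy

/-!
# The total of the costs of one side, in the form of the mean of `kAF`
-/

set_option autoImplicit false

namespace Pool.Agent.Helper61.FW

open Pool.Agent.Helper22.FW Pool.Agent.Helper99.FW
open Pool.Agent.Helper9.ND (Rc)

noncomputable section

variable {N u k K L P S' C₀ ρw n r : ℕ} {lr w τ κ nt p δ εA E ek : ℝ}

/-- the costs of the labels, once for each spectator -/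
theorem nk_tot2 (h : NK N u k K L P S' C₀ ρw n lr w τ κ nt p δ εA E ek) (hw : 0 ≤ w) (hlr : 0 ≤ lr)
    (hL : L * P ≤ n) (hE : 0 ≤ E) (hek : 0 ≤ ek) {e cf : ℝ} (he0 : 0 ≤ e) (he : e ≤ 2 * ((L + 1) * lr))
    (hcf0 : 0 ≤ cf) (hcf : cf ≤ w) :
    k * ((L * P : ℕ) * (u * (e + cf))) * ((u + 1) * w) ≤ τ * (n : ℝ) ^ 2 := by
  obtain ⟨A, hA⟩ : ∃ A : ℝ, A = (u + 1) ^ 2 * (w + 1) ^ 3 := ⟨_, rfl⟩
  obtain ⟨kK, hkK⟩ : ∃ kK : ℝ, kK = (k + 1) * (K + 1) ^ 3 := ⟨_, rfl⟩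
  have eW3 : W3 u k K w = 1000 * (A * kK) := by
    unfold W3
    rw [W1_eq, hA, hkK]
    ring
  have hu0 : (0 : ℝ) ≤ u := Nat.cast_nonneg u
  have hk0 : (0 : ℝ) ≤ k := Nat.cast_nonneg k
  have hK0 : (0 : ℝ) ≤ K := Nat.cast_nonneg K
  have hn0 : (0 : ℝ) ≤ n := Nat.cast_nonneg n
  have hL0 : (0 : ℝ) ≤ L := Nat.cast_nonneg L
  have hM0 : (0 : ℝ) ≤ (L * P : ℕ) := Nat.cast_nonneg _
  have hM : ((L * P : ℕ) : ℝ) ≤ n := by exact_mod_cast hL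
  have hN1 : (1 : ℝ) ≤ ((N + 1 : ℕ) : ℝ) := by
    push_cast
    linarith [(Nat.cast_nonneg N : (0 : ℝ) ≤ N)]
  have hA0 : 0 ≤ A := by
    rw [hA]
    positivity
  have hkk : (k : ℝ) ≤ kK := by
    rw [hkK]
    have : (1 : ℝ) ≤ (K + 1) ^ 3 := one_le_pow₀ (by linarith)
    nlinarith
  have hkK0 : 0 ≤ kK := hk0.trans hkk
  have hw3 : w ≤ (w + 1) ^ 3 := by
    have e1 : (w + 1) ^ 3 = w + (1 + 2 * w + 3 * (w * w) + w * (w * w)) := by ring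
    rw [e1]
    have : 0 ≤ 1 + 2 * w + 3 * (w * w) + w * (w * w) := by positivity
    linarith
  have hww : w * w ≤ (w + 1) ^ 3 := by
    have e1 : (w + 1) ^ 3 = w * w + (1 + 3 * w + 2 * (w * w) + w * (w * w)) := by ring
    rw [e1]
    have : 0 ≤ 1 + 3 * w + 2 * (w * w) + w * (w * w) := by positivity
    linarith
  have huu : (u : ℝ) * (u + 1) ≤ (u + 1) ^ 2 := by
    have e1 : ((u : ℝ) + 1) ^ 2 = u * (u + 1) + (u + 1) := by ring
    rw [e1]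
    linarith
  have wA : (u : ℝ) * (u + 1) * w ≤ A := by
    rw [hA]
    exact mul_le_mul huu hw3 hw (by positivity)
  have wB : (u : ℝ) * (u + 1) * (cf * w) ≤ A := by
    rw [hA]
    refine mul_le_mul huu (le_trans ?_ hww) (mul_nonneg hcf0 hw) (by positivity)
    exact mul_le_mul_of_nonneg_right hcf hw
  have j_rc : A * kK * ((L + 1) * lr) ≤ τ * n / 1000 := by
    have := h.rc
    rw [eW3] at this
    linarith
  have hAk : 0 ≤ A * kK := mul_nonneg hA0 hkK0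
  have j_one : A * kK ≤ τ * n / 1000 := by
    have h1 := h.lin
    rw [eW3] at h1
    have h2 : A * kK ≤ A * kK * (E + ek + ((N + 1 : ℕ) : ℝ)) := le_mul_of_one_le_right hAk (by linarith)
    linarith
  have t1 : k * (u * (e + cf)) * ((u + 1) * w) ≤ τ * n := by
    have h1 : k * (u * (e + cf)) * ((u + 1) * w) = k * ((u * (u + 1) * w) * e + u * (u + 1) * (cf * w)) := by ring
    rw [h1]
    have h2 : (u * (u + 1) * w) * e + u * (u + 1) * (cf * w) ≤ A * (2 * ((L + 1) * lr)) + A := by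
      refine add_le_add ?_ wB
      exact mul_le_mul wA he he0 hA0
    have h3 : 0 ≤ A * (2 * ((L + 1) * lr)) + A := by positivity
    calc (k : ℝ) * ((u * (u + 1) * w) * e + u * (u + 1) * (cf * w)) ≤ kK * (A * (2 * ((L + 1) * lr)) + A) :=
          mul_le_mul hkk h2 (by positivity) hkK0
      _ = 2 * (A * kK * ((L + 1) * lr)) + A * kK := by ring
      _ ≤ τ * n := by
        have : 0 ≤ τ * n / 1000 := hAk.trans j_one
        linarith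
  have t0 : 0 ≤ k * (u * (e + cf)) * ((u + 1) * w) := by positivity
  calc k * ((L * P : ℕ) * (u * (e + cf))) * ((u + 1) * w)
      = (L * P : ℕ) * (k * (u * (e + cf)) * ((u + 1) * w)) := by ring
    _ ≤ n * (τ * n) := mul_le_mul hM t1 t0 hn0
    _ = τ * (n : ℝ) ^ 2 := by ring

/-- **THE TOTAL OF THE COSTS OF ONE SIDE** in the form of the mean of `kAF` -/
theorem nk_all (h : NK N (N + 1) k K L P S' C₀ ρw n (Real.logb 2 (Fintype.card (Rc (N + 1) r))) w τ κ nt p δ εA E ek)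
    (hw : 0 ≤ w) (hL : L * P ≤ n) (hS : S' ≤ P) (hE : 0 ≤ E) (hek : 0 ≤ ek) (hκ : 0 ≤ κ) (hεA : 0 ≤ εA)
    (hδ : 0 ≤ δ) (hnt : 0 ≤ nt) (hp1 : p ≤ 1) {R I : ℕ} (hI : I ≤ n) {cf c3 c4 pv ps : ℝ} (hR : (R : ℝ) ≤ w)
    (hcf0 : 0 ≤ cf) (hcf : cf ≤ w) (hc30 : 0 ≤ c3) (hc3 : c3 ≤ w) (hc40 : 0 ≤ c4) (hc4 : c4 ≤ w)
    (hpv : pv ≤ nt * (1 - p) ^ K) (hps : ps ≤ nt * (1 - p) ^ K) (hpv0 : 0 ≤ pv) (hps0 : 0 ≤ ps) :
    (L * S' * (((N + 1 : ℕ) : ℝ) * c3 * (L * (P - S') + clsN (N + 1) ρw r κ L P S' C₀ k E ek εA) +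
        (((N + 1 : ℕ) : ℝ) * c3 * (I * pv) + c4 * (I * ps))) +
      k * (L * S' * (((N + 1 : ℕ) : ℝ) * K * (K * (2 * ek + (2 * E + 8 * K * (E + 4 * ((N + 1 : ℕ) : ℝ) +
        (ek + ((N + 1 : ℕ) : ℝ)))))) +
        ((N + 1 : ℕ) : ℝ) * (2 * (L * Real.logb 2 (Fintype.card (Rc (N + 1) r))) + cf)) +
        (((N + 1 : ℕ) : ℝ) * c3 * (I + (L * P : ℕ)) + c4 * I) * (L * S' * (8 * K * δ) + 8 * K *
          (4 / δ ^ 2 * (S' * (((k + 2 * K : ℕ) + 1) * (E + ((N + 1 : ℕ) : ℝ) + (ek + ((N + 1 : ℕ) : ℝ))))))) +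
        R * I * nBad (N + 1) r ρw L ek) +
      L * (P - S') * (R * I)) * ((((N + 1 : ℕ) : ℝ) + 1) * w) ≤ 21 * τ * (n : ℝ) ^ 2 := by
  set lr : ℝ := Real.logb 2 (Fintype.card (Rc (N + 1) r)) with hlr
  have hlr0 : 0 ≤ lr := by
    rw [hlr]
    by_cases h0 : Fintype.card (Rc (N + 1) r) = 0
    · rw [h0]
      simp
    · exact Real.logb_nonneg (by norm_num) (by exact_mod_cast Nat.one_le_iff_ne_zero.mpr h0)
  have hT := h.total hw hL hS hE hek hκ hεA hδ hnt hp1 hI (e := 0) (cf := 0) hR le_rfl hw hc30 hc3 hc40 hc4 le_rfl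
    (by positivity)
  have h2 := nk_tot2 h hw hlr0 hL hE hek (e := 2 * (L * lr)) (cf := cf) (by positivity) (by nlinarith) hcf0 hcf
  rw [← hlr] at hT
  have hu0 : (0 : ℝ) ≤ ((N + 1 : ℕ) : ℝ) := Nat.cast_nonneg _
  have hSP : (S' : ℝ) ≤ P := by exact_mod_cast hS
  have hL0 : (0 : ℝ) ≤ L := Nat.cast_nonneg L
  have hLS : (L : ℝ) * S' ≤ (L * P : ℕ) := by
    push_cast
    exact mul_le_mul_of_nonneg_left hSP hL0
  have hPS : (0 : ℝ) ≤ P - S' := by linarith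
  have hk0 : (0 : ℝ) ≤ k := Nat.cast_nonneg k
  have hI0 : (0 : ℝ) ≤ I := Nat.cast_nonneg I
  have hcl0 : 0 ≤ clsN (N + 1) ρw r κ L P S' C₀ k E ek εA := by
    unfold clsN
    rw [← hlr]
    positivity
  have hq0 : 0 ≤ nt * (1 - p) ^ K := mul_nonneg hnt (pow_nonneg (by linarith) _)
  have m0 : 0 ≤ (((N + 1 : ℕ) : ℝ) + 1) * w := by positivity
  have a1 : L * S' * (((N + 1 : ℕ) : ℝ) * c3 * (L * (P - S') + clsN (N + 1) ρw r κ L P S' C₀ k E ek εA) +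
        (((N + 1 : ℕ) : ℝ) * c3 * (I * pv) + c4 * (I * ps))) ≤
      (L * P : ℕ) * (((N + 1 : ℕ) : ℝ) * c3 * (L * (P - S') + clsN (N + 1) ρw r κ L P S' C₀ k E ek εA)) +
      (L * P : ℕ) * ((((N + 1 : ℕ) : ℝ) * c3 * I + c4 * I) * (nt * (1 - p) ^ K)) := by
    rw [← mul_add]
    refine mul_le_mul hLS ?_ (by positivity) (Nat.cast_nonneg _)
    have q1 : ((N + 1 : ℕ) : ℝ) * c3 * (I * pv) ≤ ((N + 1 : ℕ) : ℝ) * c3 * (I * (nt * (1 - p) ^ K)) := by gcongr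
    have q2 : c4 * (I * ps) ≤ c4 * (I * (nt * (1 - p) ^ K)) := by gcongr
    linarith
  have a2 : L * S' * (((N + 1 : ℕ) : ℝ) * K * (K * (2 * ek + (2 * E + 8 * K * (E + 4 * ((N + 1 : ℕ) : ℝ) +
        (ek + ((N + 1 : ℕ) : ℝ)))))) + ((N + 1 : ℕ) : ℝ) * (2 * (L * lr) + cf)) ≤
      (L * P : ℕ) * (((N + 1 : ℕ) : ℝ) * K * (K * (2 * ek + 2 * E + 8 * K * (E + 5 * ((N + 1 : ℕ) : ℝ) + ek)))) +
      (L * P : ℕ) * (((N + 1 : ℕ) : ℝ) * (2 * (L * lr) + cf)) := by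
    rw [← mul_add]
    refine mul_le_mul hLS (le_of_eq ?_) (by positivity) (Nat.cast_nonneg _)
    ring
  have a3 : (L * S' * (8 * K * δ) + 8 * K *
          (4 / δ ^ 2 * (S' * (((k + 2 * K : ℕ) + 1) * (E + ((N + 1 : ℕ) : ℝ) + (ek + ((N + 1 : ℕ) : ℝ))))))) =
      TTn N k K L S' δ E ek := by
    unfold TTn
    push_cast
    ring
  have a4 : nBad (N + 1) r ρw L ek = 64 * 2 ^ ρw * (ρw * (L * lr + ek)) := by
    unfold nBad
    rw [← hlr]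
    ring
  rw [a3, a4]
  have a5 := mul_le_mul_of_nonneg_left a2 hk0
  have key := mul_le_mul_of_nonneg_right (add_le_add a1 a5) m0
  have e1 : (0 : ℝ) + 0 = 0 := add_zero 0
  rw [e1, mul_zero, zero_add] at hT
  push_cast at hT h2 key ⊢
  linarith

end

end Pool.Agent.Helper61.FW
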