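import Pool.Agent.Helper61.FW.Cst1
import Pool.Agent.Helper61.FW.CoT
import Pool.Agent.Helper58.FW.KA
import Pool.Agent.Helper22.FW.NumT
import Pool.Agent.Helper70.FW.Afg
import Pool.Agent.Helper78.FW.HA

/-!
# The costs of one side: `COST1`

`cost1` : the rows of one side (`rowH_all`), the mean of the costs (`kAF_mean`) and the choice of the constants (`numK`).
-/

set_option autoImplicit false

namespace Pool.Agent.Helper61.FW

open Finset Pool.Agent.Helper69.RK Pool.Agent.Helper61.GL Pool.Agent.Helper25.FA Pool.Agent.Helper46.WF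
  Pool.Agent.Helper70.FW Pool.Agent.Helper58.TR Pool.Agent.Helper99.FW
  Pool.Agent.Helper58.VW Pool.Agent.Helper78.FW Pool.Agent.Helper15.VW Pool.Agent.Helper15.VG Pool.Agent.Helper18.FW
  Pool.Agent.Helper58.FW
open Pool.Agent.Helper22.FW hiding cN
open Pool.Agent.Helper6.FW (CK)
open Pool.Agent.Helper9.ND (Rc)
open Pool.Agent.Helper92.FW (net)

noncomputable section

/-- the numbers for large `n` -/
theorem cost_num {ρ : ℝ} (hρ : 0 < ρ) (hρ1 : ρ ≤ 1) (b R P X C₀ : ℕ) (hR : 1 ≤ R) (hP : 1 ≤ P) : ∃ n₁ : ℕ, ∀ n, n₁ ≤ n →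
    Fn ρ n + Ln P n * P + X ≤ n ∧ Ln P n * P + C₀ ≤ n ∧ ((Fn ρ n + X : ℕ) : ℝ) ≤ ρ / 2 * n := by
  obtain ⟨n₂, h₂⟩ := num_lev hρ hρ1 1 one_pos b R P 0 hR hP
  obtain ⟨n₃, h₃⟩ := exists_nat_ge (4 * X / ρ)
  refine ⟨max n₂ (max n₃ (2 * C₀ + 2 * X)), fun n hn => ?_⟩
  obtain ⟨-, h4, -⟩ := h₂ n ((le_max_left _ _).trans hn)
  have h5 : n₃ ≤ n := (le_max_left _ _).trans ((le_max_right _ _).trans hn)
  have h6 : 2 * C₀ + 2 * X ≤ n := (le_max_right _ _).trans ((le_max_right _ _).trans hn)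
  have h5' : (n₃ : ℝ) ≤ n := by exact_mod_cast h5
  have h7 : 4 * (X : ℝ) ≤ ρ * n := by
    have := h₃.trans h5'
    rw [div_le_iff₀ hρ] at this
    linarith
  have hF := Fn_le' hρ hρ1 n
  have hF2 : (Fn ρ n : ℝ) ≤ ρ / 32 * n := by
    unfold Fn
    exact Nat.floor_le (by positivity)
  have h4' : 4 * ((Ln P n * P : ℕ) : ℝ) ≤ n := by exact_mod_cast h4
  have h6' : 2 * (C₀ : ℝ) + 2 * X ≤ n := by exact_mod_cast h6
  have hρn : 0 ≤ ρ * n := by positivity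
  refine ⟨?_, by omega, ?_⟩
  · have : ((Fn ρ n + Ln P n * P + X : ℕ) : ℝ) ≤ n := by
      push_cast at h4' ⊢
      have hn0 : (0 : ℝ) ≤ n := Nat.cast_nonneg n
      have hC0 : (0 : ℝ) ≤ C₀ := Nat.cast_nonneg C₀
      have hX0 : (X : ℝ) ≤ n / 2 := by linarith
      linarith
    exact_mod_cast this
  · push_cast
    linarith

/-- **THE COSTS OF ONE SIDE** -/
theorem cost1 (N : ℕ) {ρ : ℝ} (hρ : 0 < ρ) (hρ1 : ρ ≤ 1) : COST1 (N + 1) ρ := by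
  intro b k0 e τ0 hb he hτ0
  have hNr : (0 : ℝ) ≤ N := Nat.cast_nonneg N
  have hu1 : (1 : ℝ) ≤ ((N + 1 : ℕ) : ℝ) := by
    push_cast
    linarith
  have hCN : (1 : ℝ) ≤ 42120000 * ((N + 1 : ℕ) : ℝ) ^ 3 := by
    have : (1 : ℝ) ≤ ((N + 1 : ℕ) : ℝ) ^ 3 := one_le_pow₀ hu1
    linarith
  obtain ⟨aa, bb, ha, hb', haf⟩ := afg (N + 1) hρ hCN
  set τ : ℝ := min (min e (1 / 2)) (τ0 / 21) with hτd
  have hτ : 0 < τ := lt_min (lt_min he (by norm_num)) (by positivity)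
  have hτe : τ ≤ e := (min_le_left _ _).trans (min_le_left _ _)
  have hτ0' : 21 * τ ≤ τ0 := by
    have : τ ≤ τ0 / 21 := min_le_right _ _
    linarith
  obtain ⟨C₀, hC₀, H⟩ := numK N (N + 1) k0 ρ aa bb τ hρ hρ1 ha hb' hτ
  set C : ℝ := CK (N + 1) C₀ with hCd
  have hC1 : 1 ≤ C := by
    have := (Pool.Agent.Helper6.FW.CK_big (N := N + 1) (C₀ := C₀) (Nat.succ_pos N)).1
    linarith
  obtain ⟨w0, wR, wD, wF1, wF3, wT, wk1, wRF, wRT⟩ := kw_ge (N + 1) ρ hC1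
  set w : ℝ := kw (N + 1) ρ C with hwd
  obtain ⟨κ, r, ρw, hCst, H⟩ := H w (kR (N + 1) ρ C) w0 (haf C₀) (kR_six _ _ _)
  set R : ℕ := kR (N + 1) ρ C with hRd
  have hCst1 := hCst 1 one_pos le_rfl
  have hκ := hCst1.hκ
  -- the two losses
  set p1 : ℝ := κ / (2 ^ 25 * (((N + 1 : ℕ) : ℝ) + 1) * ((2 : ℝ) ^ R) ^ 2) with hp1d
  set p2 : ℝ := (1 / (2048 * (2 : ℝ) ^ R)) ^ 2 with hp2d
  have hp1le : p1 ≤ 1 := Pool.Agent.Helper9.FW.cst_p hCst1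
  have hp1pos : 0 < p1 := by positivity
  have hp2pos : 0 < p2 := by positivity
  have hp2le : p2 ≤ 1 := by
    have q2 : (1 : ℝ) ≤ 2 ^ R := one_le_pow₀ (by norm_num)
    have q3 : 1 / (2048 * (2 : ℝ) ^ R) ≤ 1 := by
      rw [div_le_one (by positivity)]
      linarith
    exact pow_le_one₀ (by positivity) q3
  set p : ℝ := min p1 p2 with hpd
  set nt : ℝ := max 1 ((net (N + 1) (1 / (8 * ((N + 1 : ℕ) : ℝ)))).card : ℝ) with hntd
  have hnt1 : 1 ≤ nt := le_max_left _ _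
  have hp0 : 0 < p := lt_min hp1pos hp2pos
  have hp1' : p ≤ 1 := (min_le_left _ _).trans hp1le
  obtain ⟨k, K, hk, hK, δ, hδ, P₀, H⟩ := H nt p (by linarith) hp0 hp1'
  obtain ⟨S', hS', hSC, hSρ, hP2, hlP, _, εA, hεA, εQ₀, hεQ₀, H⟩ := H P₀ le_rfl
  obtain ⟨P, hPd⟩ : ∃ P : ℕ, P = P₀ := ⟨_, rfl⟩
  rw [← hPd] at hSC hSρ hP2 hlP H
  have hP1 : 1 ≤ P := by omega
  set lr : ℝ := Real.logb 2 (Fintype.card (Rc (N + 1) r)) with hlrd
  have hlr0 : 0 ≤ lr := by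
    have : Nonempty (Rc (N + 1) r) := ⟨Pool.Agent.Helper9.ND.rc r 0⟩
    have h2 : (1 : ℝ) ≤ Fintype.card (Rc (N + 1) r) := by exact_mod_cast Fintype.card_pos
    exact Real.logb_nonneg (by norm_num) h2
  -- the sizes for `η = 0`
  obtain ⟨η₀', hη₀', n₀', H0⟩ := H εQ₀ le_rfl 1 one_pos
  have H0 := (H0 0 le_rfl hη₀'.le ((n₀' + 1) * P) (le_trans (Nat.le_succ n₀') (Nat.le_mul_of_pos_right _ hP1)) _ rfl).2.2
    (n₀' + 1) le_rfl
  have hkp : 53248 * ((((N + 1 : ℕ) : ℝ) + 1) * κ) ≤ e := by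
    have h1 := H0.kp
    have h2 := W1_one (N + 1) w0
    have h3 : 0 ≤ 53248 * ((((N + 1 : ℕ) : ℝ) + 1) * κ) := by positivity
    have h4 : 1 * (53248 * ((((N + 1 : ℕ) : ℝ) + 1) * κ)) ≤
        W1 (N + 1) w * (514 * (53248 * ((((N + 1 : ℕ) : ℝ) + 1) * κ))) :=
      mul_le_mul h2 (by linarith) h3 (by linarith)
    linarith
  have hnod : 64 * 2 ^ ρw * (ρw * lr) ≤ e * P := by
    have h1 := H0.nod
    have h2 := (W1_one (N + 1) w0).trans (W3_ge (N + 1) k K w0)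
    have hL0 : (0 : ℝ) < ((n₀' + 1 : ℕ) : ℝ) := by positivity
    have h3 : 0 ≤ 64 * 2 ^ ρw * (ρw * (((n₀' + 1 : ℕ) : ℝ) * lr)) := by positivity
    have h4 : 1 * (64 * 2 ^ ρw * (ρw * (((n₀' + 1 : ℕ) : ℝ) * lr))) ≤ W3 (N + 1) k K w *
        (514 * (64 * 2 ^ ρw * (ρw * (((n₀' + 1 : ℕ) : ℝ) * lr + 0 * (((n₀' + 1) * P : ℕ) : ℝ))))) := by
      rw [zero_mul, add_zero]
      exact mul_le_mul h2 (by linarith) h3 (by linarith)
    have h5 : τ * (((n₀' + 1) * P : ℕ) : ℝ) = ((n₀' + 1 : ℕ) : ℝ) * (τ * P) := by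
      push_cast
      ring
    have h6 : ((n₀' + 1 : ℕ) : ℝ) * (64 * 2 ^ ρw * (ρw * lr)) ≤ ((n₀' + 1 : ℕ) : ℝ) * (τ * P) := by
      have h7 : ((n₀' + 1 : ℕ) : ℝ) * (64 * 2 ^ ρw * (ρw * lr)) =
          1 * (64 * 2 ^ ρw * (ρw * (((n₀' + 1 : ℕ) : ℝ) * lr))) := by ring
      rw [h7, ← h5]
      exact h4.trans h1
    have h8 := le_of_mul_le_mul_left h6 hL0
    exact h8.trans (mul_le_mul_of_nonneg_right hτe (Nat.cast_nonneg P))
  clear H0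
  -- one size for all roundings
  obtain ⟨X, hX⟩ : ∃ X : ℕ, 416 * ((N + 1 : ℕ) : ℝ) + ((N + 1 : ℕ) : ℝ) * (24 * K + 2) +
      ((N + 1 : ℕ) : ℝ) * Kas (N + 1) ≤ 2 ^ X := by
    obtain ⟨X, hX⟩ := pow_unbounded_of_one_lt (416 * ((N + 1 : ℕ) : ℝ) + ((N + 1 : ℕ) : ℝ) * (24 * K + 2) +
      ((N + 1 : ℕ) : ℝ) * Kas (N + 1)) (one_lt_two (α := ℝ))
    exact ⟨X, hX.le⟩
  have hKas : 0 ≤ Kas (N + 1) := by
    unfold Kas Bfr
    positivity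
  have hX1 : 416 * ((N + 1 : ℕ) : ℝ) ≤ 2 ^ X := by
    have : 0 ≤ ((N + 1 : ℕ) : ℝ) * (24 * K + 2) := by positivity
    have : 0 ≤ ((N + 1 : ℕ) : ℝ) * Kas (N + 1) := by positivity
    linarith
  have hX2 : ((N + 1 : ℕ) : ℝ) * (24 * K + 2) ≤ 2 ^ X := by
    have : 0 ≤ ((N + 1 : ℕ) : ℝ) * Kas (N + 1) := by positivity
    linarith
  have hX3 : ((N + 1 : ℕ) : ℝ) * Kas (N + 1) ≤ 2 ^ X := by
    have : 0 ≤ ((N + 1 : ℕ) : ℝ) * (24 * K + 2) := by positivity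
    linarith
  obtain ⟨n₁, hn₁⟩ := cost_num hρ hρ1 b R P X C₀ (le_trans (by norm_num) (kR_six (N + 1) ρ C)) hP1
  refine ⟨C, hC1, κ, r, ρw, hkp, hCst, k, K, hk, hK, δ, hδ, P, S', X, hS', hSρ, hP2, hnod, εQ₀, hεQ₀,
    fun ηQ hηQ => ?_⟩
  obtain ⟨η₀, hη₀, n₀, H⟩ := H εQ₀ le_rfl ηQ hηQ
  refine ⟨η₀, hη₀, fun η hη hηle => ⟨max n₀ n₁, ?_⟩⟩
  intro Ω φ α β _ _ _ D hn εQ c hεQ tp tq Ap Cq h FP hFP FQ hFQ Λ _ l en hr hx a0 b0 oL oR hoff I hI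
  obtain ⟨g1, g2, g3⟩ := hn₁ D.n ((le_max_right _ _).trans hn)
  obtain ⟨s1, s2, s3⟩ := H η hη hηle D.n ((le_max_left _ _).trans hn) _ rfl
  set L : ℕ := Ln P D.n with hLd
  set F : ℕ := Fn ρ D.n with hFd
  set E : ℝ := ((k + 2 * K : ℕ) : ℝ) * ((2 * ((k + 2 * K : ℕ) : ℝ) + 1) * (η * D.n)) with hEd
  have hLP : L * P ≤ D.n := by omega
  have hNK := s3 L hLP
  obtain ⟨t1, t2, t3⟩ := s2 (F + X) g3
  have hg := hCst ((1 / 2) ^ F) (by positivity) (pow_le_one₀ (by norm_num) (by norm_num))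
  have hE0 : 0 ≤ E := by positivity
  have hek : 0 ≤ η * (D.n : ℝ) := by positivity
  let b1 : Fin K := ⟨0, hK⟩
  have hpp : ((1 : ℝ) / 2) ^ F * 2 ^ F = 1 := by rw [← mul_pow]; norm_num
  have hg0 : (0 : ℝ) < (1 / 2) ^ F := by positivity
  have hdiv : ∀ x : ℝ, x / (1 / 2) ^ F = x * 2 ^ F := by
    intro x
    rw [div_eq_iff hg0.ne', mul_assoc, mul_comm ((2 : ℝ) ^ F), hpp, mul_one]
  have hC0 : 0 ≤ C := by linarith
  have hF3 : 0 ≤ cF3 (N + 1) 1 C := kcF3_nn (N + 1) hC0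
  have hF1 : 0 ≤ cF1 1 C := kcF1_nn hC0
  have hTe : cT (N + 1) ((((N + 1 : ℕ) : ℝ) + ((N + 1 : ℕ) : ℝ) + 1) * C) =
      cT (N + 1) ((2 * ((N + 1 : ℕ) : ℝ) + 1) * C) := by
    congr 1
    ring
  have hT0 : 0 ≤ cT (N + 1) ((((N + 1 : ℕ) : ℝ) + ((N + 1 : ℕ) : ℝ) + 1) * C) :=
    kcT_nn (N + 1) (by positivity)
  have hRr : (0 : ℝ) ≤ R := Nat.cast_nonneg R
  have hIr : (0 : ℝ) ≤ I := Nat.cast_nonneg I
  -- the two losses to the power `K`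
  have hpv : (1 - p2) ^ K ≤ nt * (1 - p) ^ K := by
    have q1 : (1 - p2) ^ K ≤ (1 - p) ^ K := pow_le_pow_left₀ (by linarith) (by linarith [min_le_right p1 p2]) K
    have q2 : 0 ≤ (1 - p) ^ K := pow_nonneg (by linarith) K
    nlinarith only [hnt1, q1, q2]
  have hps : ((net (N + 1) (1 / (8 * ((N + 1 : ℕ) : ℝ)))).card : ℝ) * (1 - p1) ^ K ≤ nt * (1 - p) ^ K := by
    have q1 : (1 - p1) ^ K ≤ (1 - p) ^ K := pow_le_pow_left₀ (by linarith) (by linarith [min_le_left p1 p2]) K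
    exact mul_le_mul (le_max_right _ _) q1 (pow_nonneg (by linarith) K) (by linarith)
  -- the constants of the costs
  obtain ⟨c0, hc0⟩ : ∃ x : ℝ, x = ((N + 1 : ℕ) : ℝ) * (R + cF3 (N + 1) 1 C) := ⟨_, rfl⟩
  obtain ⟨kk, hkk⟩ : ∃ x : ℝ, x = ((N + 1 : ℕ) : ℝ) * (R + cF3 (N + 1) 1 C) * (I * (1 - p2) ^ K) +
      (R + cT (N + 1) ((((N + 1 : ℕ) : ℝ) + ((N + 1 : ℕ) : ℝ) + 1) * C)) *
        (I * (((net (N + 1) (1 / (8 * ((N + 1 : ℕ) : ℝ)))).card : ℝ) * (1 - p1) ^ K)) := ⟨_, rfl⟩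
  obtain ⟨cd, hcd⟩ : ∃ x : ℝ, x = ((N + 1 : ℕ) : ℝ) * K := ⟨_, rfl⟩
  obtain ⟨ce, hce⟩ : ∃ x : ℝ, x = ((N + 1 : ℕ) : ℝ) * (2 * (L * lr) + cF1 1 C) := ⟨_, rfl⟩
  obtain ⟨ct, hct⟩ : ∃ x : ℝ, x = ((N + 1 : ℕ) : ℝ) * (R + cF3 (N + 1) 1 C) * (I + (L * P : ℕ)) +
      (R + cT (N + 1) ((((N + 1 : ℕ) : ℝ) + ((N + 1 : ℕ) : ℝ) + 1) * C)) * I := ⟨_, rfl⟩
  obtain ⟨cn, hcn⟩ : ∃ x : ℝ, x = (R : ℝ) * I := ⟨_, rfl⟩
  have nn0 : 0 ≤ c0 := by rw [hc0]; positivity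
  have nnv : 0 ≤ (1 - p2) ^ K := pow_nonneg (by linarith) K
  have nns : 0 ≤ ((net (N + 1) (1 / (8 * ((N + 1 : ℕ) : ℝ)))).card : ℝ) * (1 - p1) ^ K :=
    mul_nonneg (Nat.cast_nonneg _) (pow_nonneg (by linarith) K)
  have nnk : 0 ≤ kk := by
    rw [hkk]
    positivity
  have nnd : 0 ≤ cd := by rw [hcd]; positivity
  have nne : 0 ≤ ce := by rw [hce]; positivity
  have nnt : 0 ≤ ct := by rw [hct]; positivity
  have nnn : 0 ≤ cn := by rw [hcn]; positivity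
  refine ⟨kAF D l en FP tp Ap FQ tq Cq P ρw R r ((1 / 2) ^ F) κ oL oR S' C₀ L (mvs k K)
    (fun a _ b => GlK D en b0 a b) δ c0 kk cd ce ct cn R I a0 b0 b1, ?_, ?_, ?_⟩
  · intro w' hw' m _
    exact kAF_nonneg h hr FP FQ P ρw R r ((1 / 2) ^ F) κ oL oR S' C₀ L (mvs k K) (fun a _ b => GlK D en b0 a b) hδ.le
      nn0 nnk nnd nne nnt nnn R I a0 b0 b1 hw' m
  · intro j0 hj0
    have hj0' : j0 + I * R + F + X ≤ L * P := hj0
    exact rowH_all h hFQ hr hx a0 b0 b1 (S' := S') (C₀ := C₀) (b := b) hg oL oR hδ.le hb hLP (X0 := X)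
      (by
        have : ((416 * (N + 1) : ℕ) : ℝ) ≤ ((2 ^ X : ℕ) : ℝ) := by
          push_cast at hX1 ⊢
          linarith
        exact_mod_cast this) (by omega)
      (by
        have q1 : ((2 : ℝ) ^ X) * 2 ^ F ≤ 2 ^ D.n := by
          rw [← pow_add]
          exact pow_le_pow_right₀ (by norm_num) (by omega)
        have q2 := mul_le_mul_of_nonneg_right hX2 (pow_nonneg (zero_le_two (α := ℝ)) F)
        exact q2.trans q1)
      (by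
        have q1 : ((2 : ℝ) ^ X) * 2 ^ (L * P) * 2 ^ F ≤ 2 ^ D.n := by
          rw [← pow_add, ← pow_add]
          exact pow_le_pow_right₀ (by norm_num) (by omega)
        have q2 := mul_le_mul_of_nonneg_right hX3 (pow_nonneg (zero_le_two (α := ℝ)) (L * P))
        have q3 := mul_le_mul_of_nonneg_right q2 (pow_nonneg (zero_le_two (α := ℝ)) F)
        refine le_trans (le_of_eq ?_) (q3.trans q1)
        ring)
      (c1 := kc1 (N + 1) C) (cD := kcD (N + 1) ρ C) (c0 := c0) (k00 := kk) (cd := cd) (ce := ce) (cT' := ct) (cn := cn)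
      (le_of_eq rfl) (kc1_ge (N + 1) hC1) (le_of_eq rfl) (le_of_eq hc0.symm) (le_of_eq hkk.symm) (le_of_eq hcd.symm)
      (le_of_eq hce.symm) (le_of_eq hct.symm) (le_of_eq hcn.symm) _
      (fun a w' m => kaF D l en FP tp Ap tq P ρw R r ((1 / 2) ^ F) κ oL (mvs k K) (fun a _ b => GlK D en b0 a b) δ
        cd ce ct cn a0 b0 a w' m)
      (fun _ _ _ _ _ => le_rfl) (fun _ _ _ _ _ _ _ => le_rfl)
  · have hmean := kAF_mean h hr hx hFP hFQ hg P oL oR a0 b0 b1 (C₀ := C₀) (S' := S') (L := L) hC₀ hSC hSρ g2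
      (by
        rw [hdiv]
        have q1 : ((2 : ℝ) ^ X) * 2 ^ F * 2 ^ (L * P) ≤ 2 ^ D.n := by
          rw [← pow_add, ← pow_add]
          exact pow_le_pow_right₀ (by norm_num) (by omega)
        have q2 : ((N + 1 : ℕ) : ℝ) * 2 ^ F * (Kas (N + 1) * 2 ^ (L * P)) =
            ((N + 1 : ℕ) : ℝ) * Kas (N + 1) * 2 ^ F * 2 ^ (L * P) := by ring
        rw [q2]
        have q3 : ((N + 1 : ℕ) : ℝ) * Kas (N + 1) * 2 ^ F * 2 ^ (L * P) ≤ (2 : ℝ) ^ X * 2 ^ F * 2 ^ (L * P) := by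
          gcongr
        have q4 : (0 : ℝ) ≤ 2 ^ D.n := by positivity
        linarith)
      (by linarith) hη s1 (kk := F + X) t1
      (by
        rw [hdiv, pow_add, mul_inv]
        have q1 : ((N + 1 : ℕ) : ℝ) ≤ 2 ^ X := by linarith
        have q2 : (0 : ℝ) < 2 ^ F := by positivity
        have q3 : (0 : ℝ) < 2 ^ X := by positivity
        have q4 : ((N + 1 : ℕ) : ℝ) * 2 ^ F * ((2 ^ F)⁻¹ * (2 ^ X)⁻¹) = ((N + 1 : ℕ) : ℝ) / 2 ^ X := by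
          field_simp
        rw [q4, div_le_iff₀ q3]
        linarith)
      t2 (εA := εA)
      (by
        refine le_trans ?_ t3
        have q1 : ((N : ℝ) + 1) * εQ * D.n ≤ ((N : ℝ) + 1) * εQ₀ * D.n := by gcongr
        linarith)
      hoff.2 (mvs k K) (fun a _ b => GlK D en b0 a b)
      (fun a m bb' w' w'' _ _ h1 h2 h3 h4 h5 => glK_count b0 a bb' w' w'' h1 h2 h3 h4 h5)
      (fun a m bb' w' w'' h1 h2 h3 => glK_fp hr _ (mvs k K) a0 b0 a bb' w' w'' h1 h2 h3)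
      R I (c0 := c0) (k00 := kk) (cd := cd) (ce := ce) (cT := ct) (cn := cn) nn0 nnd nnt nnn
    have hall := nk_all hNK w0 hLP (by omega) hE0 hek hκ.le hεA.le hδ.le (by linarith) hp1' hI
      (cf := cF1 1 C) (c3 := R + cF3 (N + 1) 1 C)
      (c4 := R + cT (N + 1) ((((N + 1 : ℕ) : ℝ) + ((N + 1 : ℕ) : ℝ) + 1) * C)) (R := R) wR hF1 wF1 (by positivity) wRF
      (by positivity) (by rw [hTe]; exact wRT) hpv hps nnv nns
    have hmean0 : 0 ≤ ∑ w', l w' * ∑ m ∈ range (L * P),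
        kAF D l en FP tp Ap FQ tq Cq P ρw R r ((1 / 2) ^ F) κ oL oR S' C₀ L (mvs k K) (fun a _ b => GlK D en b0 a b)
          δ c0 kk cd ce ct cn R I a0 b0 b1 w' m := by
      refine Finset.sum_nonneg fun w' _ => ?_
      by_cases hw' : l w' = 0
      · rw [hw', zero_mul]
      · exact mul_nonneg (hr.nn w') (Finset.sum_nonneg fun m _ =>
          kAF_nonneg h hr FP FQ P ρw R r ((1 / 2) ^ F) κ oL oR S' C₀ L (mvs k K) (fun a _ b => GlK D en b0 a b) hδ.le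
            nn0 nnk nnd nne nnt nnn R I a0 b0 b1 hw' m)
    have hD0 : 0 < kcD (N + 1) ρ C := lt_of_lt_of_le one_pos (kcD_ge (Nat.succ_pos N) ρ hC1)
    rw [le_div_iff₀ hD0]
    have m0 : 0 ≤ (((N + 1 : ℕ) : ℝ) + 1) * w := by positivity
    have hDw : kcD (N + 1) ρ C ≤ (((N + 1 : ℕ) : ℝ) + 1) * w :=
      wD.trans (le_mul_of_one_le_left w0 (by clear * - hu1; linarith))
    refine (mul_le_mul_of_nonneg_left hDw hmean0).trans ?_
    refine (mul_le_mul_of_nonneg_right hmean m0).trans ?_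
    rw [hc0, hkk, hcd, hce, hct, hcn]
    refine hall.trans ?_
    exact mul_le_mul_of_nonneg_right hτ0' (sq_nonneg _)

end

end Pool.Agent.Helper61.FW
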