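import Pool.Agent.Helper61.FW.Ed
import Pool.Agent.Helper22.FW.AddAR
import Pool.Agent.Helper99.FW.Tre
import Pool.Agent.Helper25.FA.Sym
import Pool.Agent.Helper78.FW.FinA

/-!
# Context of the assembly of Theorem FW

`ofE_EdgD` : the edge law of a finite digital edge; `XA` : exchangeable arrays; `sdL` : the side of an edge law.
-/

set_option autoImplicit false

namespace Pool.Agent.Helper61.FW

open Finset Pool.Agent.Helper69.RK Pool.Agent.Helper61.GL Pool.Agent.Helper25.FA Pool.Agent.Helper46.WF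
  Pool.Agent.Helper70.FW Pool.Agent.Helper22.FW Pool.Agent.Helper58.TR Pool.Agent.Helper99.FW
open Pool.Agent.Helper61.EC (vfl)

noncomputable section

section pts

variable {Ω φ : Type} {N : ℕ} {F : Ω → φ} {T : Ω → ℝ} {A : Ω → Fin N → ℝ}

/-- the base label of a point -/
def pF (p : Pnt F T A) : φ := p.1.1
/-- the time of a point -/
def pT (p : Pnt F T A) : ℝ := p.1.2.1
/-- the vector of a point -/
def pA (p : Pnt F T A) : Fin N → ℝ := p.1.2.2

theorem pnt_ext {p q : Pnt F T A} (h1 : pF p = pF q) (h2 : pT p = pT q) (h3 : pA p = pA q) : p = q :=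
  Subtype.ext (Prod.ext h1 (Prod.ext h2 h3))

end pts

section ed

variable {Ω φ : Type} [Fintype Ω] {N n : ℕ} {ρ η εQ ηQ c : ℝ} {μ : Ω → ℝ} {F : Ω → φ} {T T' : Ω → ℝ}
  {A C z : Ω → Fin N → ℝ}

theorem ofE_EdgD (h : Edg N n ρ η εQ ηQ c μ F T T' A C z) :
    EdgD (ofE μ F T T' A C z c n) ρ η εQ ηQ c pT pT pA pA where
  ed := h
  om := fun _ _ _ => rfl
  pd := fun _ _ _ _ h1 h2 h3 => pnt_ext h1 h2 h3
  qd := fun _ _ _ _ h1 h2 h3 => pnt_ext h1 h2 h3

end ed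

/-! ## Exchangeable arrays -/

variable {Ω φ α β : Type} [Fintype Ω] {N : ℕ}

/-- exchangeable arrays -/
structure XA {Λ ιr ιc Ω : Type} (l : Λ → ℝ) (en : ιr → ιc → Λ → Ω) : Prop where
  row : ∀ σ : Equiv.Perm ιr, ∃ e : Λ ≃ Λ, (∀ w, l (e w) = l w) ∧ ∀ w a b, en a b (e w) = en (σ a) b w
  col : ∀ σ : Equiv.Perm ιc, ∃ e : Λ ≃ Λ, (∀ w, l (e w) = l w) ∧ ∀ w a b, en a b (e w) = en a (σ b) w

theorem XA.mir {Λ ιr ιc Ω : Type} {l : Λ → ℝ} {en : ιr → ιc → Λ → Ω} (h : XA l en) : XA l (fun b a => en a b) where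
  row := fun σ => by
    obtain ⟨e, h1, h2⟩ := h.col σ
    exact ⟨e, h1, fun w a b => h2 w b a⟩
  col := fun σ => by
    obtain ⟨e, h1, h2⟩ := h.row σ
    exact ⟨e, h1, fun w a b => h2 w b a⟩

theorem arr_XA (D : ED Ω φ α β N) {ιr ιc : Type} [Fintype ιr] [Fintype ιc] [DecidableEq ιr] [DecidableEq ιc]
    (b0 : ιc) : XA (arr D ιr b0) (ent ιr ιc Ω) where
  row := fun σ => ⟨arow Ω ιc σ, fun w => arr_rowp D b0 σ w, fun _ _ _ => rfl⟩
  col := fun σ => ⟨acol Ω ιr σ, fun w => arr_col D b0 σ w, fun _ _ _ => rfl⟩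

/-- events under an exchange -/
theorem Pw_move {Λ : Type} [Fintype Λ] {l : Λ → ℝ} (e : Λ ≃ Λ) (he : ∀ w, l (e w) = l w) (S : Λ → Prop) :
    Pw l (fun w => S (e w)) = Pw l S := Pool.Agent.Helper25.FA.Pw_equiv e l he S

/-- the swap form of the exchangeability of the rows -/
theorem XA.swap {Λ ιc Ω : Type} [Fintype Λ] {b : ℕ} {l : Λ → ℝ} {en : Fin b → ιc → Λ → Ω} (h : XA l en) (b0 : ιc)
    {δ : Type} (f : Ω → δ) (c c' : Fin b) (Q : (Fin b → δ) → Prop) :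
    Pw l (fun w => Q ((fun a => f (en a b0 w)) ∘ Equiv.swap c c')) = Pw l (fun w => Q (fun a => f (en a b0 w))) := by
  obtain ⟨e, h1, h2⟩ := h.row (Equiv.swap c c')
  rw [← Pw_move e h1 (fun w => Q (fun a => f (en a b0 w)))]
  congr 1
  funext w
  congr 1
  funext a
  simp only [Function.comp, h2]

/-! ## The side of an edge law -/

/-- the left side of an edge law -/
def sdL (D : ED Ω φ α β N) [Fintype α] (FP : α → φ) (tp : α → ℝ) (Ap : α → Fin N → ℝ) (P ρw Dw r : ℕ) (g κ : ℝ)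
    (o : ℕ → ℕ) : Sd φ α (Pool.Agent.Helper9.ND.Rc N r) N where
  F := FP
  T := tp
  A := Ap
  E := EG N ρw Dw r g κ (push D.P D.μ) tp Ap
  P := P
  o := o
  B := bG N ρw Dw r g κ FP tp P (push D.P D.μ) Ap o

end

end Pool.Agent.Helper61.FW
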