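import Pool.Agent.Helper61.FW.Ctx
import Pool.Agent.Helper18.FW.Num
import Pool.Agent.Helper70.FW.Top

/-!
# The finite digital edge as an edge law of the array

`ofE` : points are triples (base label, time, vector) which occur; the numbers `n1`, `n2`, `h3`, `r1`, `r2`.
-/

set_option autoImplicit false

namespace Pool.Agent.Helper61.FW

open Finset Pool.Agent.Helper69.RK Pool.Agent.Helper61.GL Pool.Agent.Helper25.FA Pool.Agent.Helper46.WF
  Pool.Agent.Helper70.FW
open Pool.Agent.Helper61.EC (vfl)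

noncomputable section

/-- the range of a function, as a type -/
def rg {Ω γ : Type} (f : Ω → γ) : Type := {x // ∃ ω, f ω = x}

/-- the value as an element of the range -/
def rgm {Ω γ : Type} (f : Ω → γ) (ω : Ω) : rg f := ⟨f ω, ω, rfl⟩

theorem rgm_eq {Ω γ : Type} (f : Ω → γ) (ω ω' : Ω) : rgm f ω = rgm f ω' ↔ f ω = f ω' := Subtype.ext_iff

instance {Ω γ : Type} [Fintype Ω] (f : Ω → γ) : Fintype (rg f) := by
  classical
  exact Fintype.ofSurjective (rgm f) (by
    rintro ⟨x, ω, h⟩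
    exact ⟨ω, Subtype.ext h⟩)

variable {Ω φ : Type} [Fintype Ω] {N : ℕ}

/-- points of one side -/
abbrev Pnt (F : Ω → φ) (T : Ω → ℝ) (A : Ω → Fin N → ℝ) : Type := rg fun ω => (F ω, T ω, A ω)

/-- the edge law -/
def ofE (μ : Ω → ℝ) (F : Ω → φ) (T T' : Ω → ℝ) (A C z : Ω → Fin N → ℝ) (c : ℝ) (n : ℕ) :
    ED Ω φ (Pnt F T A) (Pnt F T' C) N where
  μ := μ
  F := F
  P := rgm _
  Q := rgm _
  z := z
  om := fun p q i => c * (p.1.2.1 * q.1.2.2 i - p.1.2.2 i * q.1.2.1)
  n := n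

variable {n : ℕ} {ρ η εQ ηQ c : ℝ} {μ : Ω → ℝ} {F : Ω → φ} {T T' : Ω → ℝ} {A C z : Ω → Fin N → ℝ}

theorem ofE_zd : (ofE μ F T T' A C z c n).zd = fun ω => vfl n (z ω) := rfl

theorem ofE_z3d : (ofE μ F T T' A C z c n).z3d =
    fun ω => vfl n fun i => z ω i + c * (T ω * C ω i - A ω i * T' ω) := rfl

theorem ofE_P (ω ω' : Ω) : (ofE μ F T T' A C z c n).P ω = (ofE μ F T T' A C z c n).P ω' ↔
    F ω = F ω' ∧ T ω = T ω' ∧ A ω = A ω' := by
  have h := rgm_eq (fun ω => (F ω, T ω, A ω)) ω ω'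
  simp only [Prod.mk.injEq] at h
  exact h

theorem ofE_Q (ω ω' : Ω) : (ofE μ F T T' A C z c n).Q ω = (ofE μ F T T' A C z c n).Q ω' ↔
    F ω = F ω' ∧ T' ω = T' ω' ∧ C ω = C ω' := by
  have h := rgm_eq (fun ω => (F ω, T' ω, C ω)) ω ω'
  simp only [Prod.mk.injEq] at h
  exact h

theorem ofE_F : (ofE μ F T T' A C z c n).F = F := rfl

variable (h : Edg N n ρ η εQ ηQ c μ F T T' A C z)

include h

theorem ofE_n2 : CH (ofE μ F T T' A C z c n).μ (ofE μ F T T' A C z c n).zd (ofE μ F T T' A C z c n).F - η * n ≤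
    CH (ofE μ F T T' A C z c n).μ (ofE μ F T T' A C z c n).zd
      (fun ω => (((ofE μ F T T' A C z c n).P ω, (ofE μ F T T' A C z c n).Q ω), (ofE μ F T T' A C z c n).F ω)) := by
  have h1 := h.i1
  have h2 : CH μ (fun ω => vfl n (z ω)) (fun ω => ((T ω, A ω), (T' ω, C ω), F ω)) =
      CH μ (fun ω => vfl n (z ω))
      (fun ω => (((ofE μ F T T' A C z c n).P ω, (ofE μ F T T' A C z c n).Q ω), (ofE μ F T T' A C z c n).F ω)) := by
    apply ch_congr_right
    intro ω ω' _ _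
    simp only [Prod.mk.injEq, ofE_P, ofE_Q, ofE_F]
    tauto
  rw [h2] at h1
  show CH μ (fun ω => vfl n (z ω)) F - η * n ≤ CH μ (fun ω => vfl n (z ω)) _
  linarith

theorem ofE_i2 : CH (ofE μ F T T' A C z c n).μ (ofE μ F T T' A C z c n).z3d (ofE μ F T T' A C z c n).F ≤
    CH (ofE μ F T T' A C z c n).μ (ofE μ F T T' A C z c n).z3d
      (fun ω => (((ofE μ F T T' A C z c n).P ω, (ofE μ F T T' A C z c n).Q ω), (ofE μ F T T' A C z c n).F ω)) +
      η * n := by
  have h1 := h.i2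
  have h2 : CH μ (fun ω => vfl n fun i => z ω i + c * (T ω * C ω i - A ω i * T' ω))
        (fun ω => ((T ω, A ω), (T' ω, C ω), F ω)) =
      CH μ (fun ω => vfl n fun i => z ω i + c * (T ω * C ω i - A ω i * T' ω))
      (fun ω => (((ofE μ F T T' A C z c n).P ω, (ofE μ F T T' A C z c n).Q ω), (ofE μ F T T' A C z c n).F ω)) := by
    apply ch_congr_right
    intro ω ω' _ _
    simp only [Prod.mk.injEq, ofE_P, ofE_Q, ofE_F]
    tauto
  rw [h2] at h1
  exact h1

/-- the second centre has at most the entropy of the centre -/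
theorem ofE_h3 : CH (ofE μ F T T' A C z c n).μ (ofE μ F T T' A C z c n).z3d (ofE μ F T T' A C z c n).F ≤
    CH (ofE μ F T T' A C z c n).μ (ofE μ F T T' A C z c n).zd (ofE μ F T T' A C z c n).F + (η * n + N) :=
  Pool.Agent.Helper18.FW.ed_z3_le (ofE μ F T T' A C z c n) h.nn h.ms (ofE_i2 h)

theorem ofE_n1 : CH (ofE μ F T T' A C z c n).μ (ofE μ F T T' A C z c n).Q (ofE μ F T T' A C z c n).F - η * n ≤
    CH (ofE μ F T T' A C z c n).μ (ofE μ F T T' A C z c n).Q
      (fun ω => ((ofE μ F T T' A C z c n).P ω, (ofE μ F T T' A C z c n).F ω)) := by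
  have h1 := h.i3
  have h2 := ch_symm μ (fun ω => (T ω, A ω)) (fun ω => (T' ω, C ω)) F
  have h3 : CH μ (ofE μ F T T' A C z c n).Q F = CH μ (fun ω => (T' ω, C ω)) F := by
    apply ch_congr_left
    intro ω ω' _ _ e
    simp only [Prod.mk.injEq, ofE_Q]
    tauto
  have h4 : CH μ (ofE μ F T T' A C z c n).Q (fun ω => ((ofE μ F T T' A C z c n).P ω, F ω)) =
      CH μ (fun ω => (T' ω, C ω)) (fun ω => ((T ω, A ω), F ω)) := by
    have h5 : CH μ (ofE μ F T T' A C z c n).Q (fun ω => ((ofE μ F T T' A C z c n).P ω, F ω)) =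
        CH μ (ofE μ F T T' A C z c n).Q (fun ω => ((T ω, A ω), F ω)) := by
      apply ch_congr_right
      intro ω ω' _ _
      simp only [Prod.mk.injEq, ofE_P]
      tauto
    rw [h5]
    apply ch_congr_left
    intro ω ω' _ _ e
    simp only [Prod.mk.injEq] at e
    simp only [Prod.mk.injEq, ofE_Q]
    tauto
  show CH μ (ofE μ F T T' A C z c n).Q F - η * n ≤
    CH μ (ofE μ F T T' A C z c n).Q (fun ω => ((ofE μ F T T' A C z c n).P ω, F ω))
  rw [h3, h4]
  linarith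

/-- **the array of the edge** -/
theorem ofE_AR {ιr ιc : Type} [Fintype ιr] [Fintype ιc] [DecidableEq ιr] [DecidableEq ιc] (b0 : ιc) :
    AR (ofE μ F T T' A C z c n) (arr (ofE μ F T T' A C z c n) ιr b0) (ent ιr ιc Ω)
      (Fintype.card ιr * ((2 * Fintype.card ιc + 1) * (η * n))) :=
  arr_AR h.nn (η * n) b0 (ofE_n1 h) (ofE_n2 h)

end

end Pool.Agent.Helper61.FW
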