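import Pool.Agent.Helper61.VW.Vec
import Pool.Agent.Helper61.EC.Wec
import Pool.Agent.Helper46.WF.Ent
import Pool.Agent.Helper15.VW.Avg

/-! Entropies of the fibres of a condition: finite lemmas; events of fibres in the exact calculus. -/

set_option autoImplicit false

namespace Pool.Agent.Helper61.FW

open Finset Filter Topology Pool.Agent.Helper69.RK Pool.Agent.Helper31.EC Pool.Agent.Helper92.W
  Pool.Agent.Helper46.WF Pool.Agent.Helper61.GL Pool.Agent.Helper61.EC

noncomputable section

/-- entropy of a vector: sum over the coordinates -/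
theorem ch_pi_sum {Ω α γ ι : Type} [Fintype Ω] [Fintype ι] (μ : Ω → ℝ) (hμ : ∀ ω, 0 ≤ μ ω) (f : ι → Ω → α)
    (G : Ω → γ) : CH μ (fun ω i => f i ω) G ≤ ∑ i, CH μ (f i) G := by
  classical
  have key : ∀ s : Finset ι, CH μ (fun ω (i : ι) => if i ∈ s then some (f i ω) else none) G ≤
      ∑ i ∈ s, CH μ (f i) G := by
    intro s
    induction s using Finset.induction_on with
    | empty =>
      rw [Finset.sum_empty]
      apply le_of_eq
      apply ch_zero
      intro ω ω' _ _ _
      funext i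
      simp
    | insert a s ha ih =>
      rw [Finset.sum_insert ha]
      have h1 : CH μ (fun ω (i : ι) => if i ∈ insert a s then some (f i ω) else none) G ≤
          CH μ (fun ω => (f a ω, fun (i : ι) => if i ∈ s then some (f i ω) else none)) G := by
        apply ch_mono μ hμ
        intro ω ω' _ _ hh _
        rw [Prod.mk.injEq] at hh
        funext i
        have h2 := congrFun hh.2 i
        by_cases hi : i = a
        · subst hi
          simp only [Finset.mem_insert, true_or, if_true, hh.1]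
        · simp only [Finset.mem_insert, hi, false_or]
          exact h2
      rw [ch_chain] at h1
      have h2 : CH μ (fun ω (i : ι) => if i ∈ s then some (f i ω) else none) (fun ω => (f a ω, G ω)) ≤
          CH μ (fun ω (i : ι) => if i ∈ s then some (f i ω) else none) G := by
        apply ch_cond μ hμ
        intro ω ω' _ _ hh
        exact (Prod.mk.inj hh).2
      linarith
  refine le_trans (le_of_eq ?_) (key univ)
  apply ch_congr_left
  intro ω ω' _ _ _
  constructor
  · intro hh
    funext i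
    simp only [Finset.mem_univ, if_true]
    rw [congrFun hh i]
  · intro hh
    funext i
    have h2 := congrFun hh i
    simp only [Finset.mem_univ, if_true, Option.some.injEq] at h2
    exact h2

/-- the restriction to an event of fibres has the same fibres -/
theorem cw_res_fib {Ω γ : Type} [Fintype Ω] (μ : Ω → ℝ) (G : Ω → γ) (E : Ω → Prop)
    (hE : ∀ ω ω', μ ω ≠ 0 → μ ω' ≠ 0 → G ω = G ω' → E ω → E ω') {ω : Ω} (h0 : μ ω ≠ 0) (h : E ω) :
    cw (res μ E) G ω = cw μ G ω := by
  classical
  have h1 : ∀ ω', G ω' = G ω → res μ E ω' = μ ω' := by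
    intro ω' h2
    by_cases h3 : μ ω' = 0
    · unfold res
      split_ifs
      · rfl
      · exact h3.symm
    · exact res_pos _ _ _ (hE ω ω' h0 h3 h2.symm h)
  have h2 : pr (res μ E) G ω = pr μ G ω := by
    rw [e1_pr_eq, e1_pr_eq]
    apply Finset.sum_congr rfl
    intro ω' _
    split_ifs with h3
    · exact h1 ω' h3
    · rfl
  funext ω'
  unfold cw
  rw [h2]
  split_ifs with h3
  · rw [h1 ω' h3]
  · rfl

theorem CH_res_fib {Ω α γ : Type} [Fintype Ω] (μ : Ω → ℝ) (hμ : ∀ ω, 0 ≤ μ ω) (f : Ω → α) (G : Ω → γ)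
    (E : Ω → Prop) (hE : ∀ ω ω', μ ω ≠ 0 → μ ω' ≠ 0 → G ω = G ω' → E ω → E ω') :
    CH (res μ E) f G = ∑ ω, res μ E ω * Hh (cw μ G ω) f := by
  have hr : ∀ ω, 0 ≤ res μ E ω := fun ω => ((st_E4 st_E1 st_E3).2.2 _ _ E hμ).2.2 ω
  rw [CH_disint _ hr]
  apply Finset.sum_congr rfl
  intro ω _
  by_cases h : E ω
  · by_cases h0 : μ ω = 0
    · rw [res_pos _ _ _ h, h0, zero_mul, zero_mul]
    · rw [cw_res_fib μ G E hE h0 h]
  · rw [res_neg _ _ _ h, zero_mul, zero_mul]

open Sp

/-- entropy on an event of fibres of large entropy -/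
theorem h_fib_ge {S : Sp} {β γ : ℕ → Type} {X : ∀ k, (S.F k).Ω → β k} {Y : ∀ k, (S.F k).Ω → γ k}
    (hX : Bdd X) (hY : Bdd Y) (E : ∀ k, (S.F k).Ω → Prop) (hE : 0 < ul (S.pr E)) (t : ℝ)
    (hEY : ∀ k ω ω', Quotient.mk (S.F k).Z ω = Quotient.mk (S.F k).Z ω' → Y k ω = Y k ω' → E k ω → E k ω')
    (ht : ∀ᶠ k in UF, ∀ ω, (S.F k).μ ω ≠ 0 → E k ω → t * (S.F k).n ≤
      Hh (cw (S.F k).μ (fun ω' => (Quotient.mk (S.F k).Z ω', Y k ω')) ω) (X k)) :
    t ≤ h (restL E hE (io X)) (restL E hE (io Y)) := by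
  have e1 : restL E hE (io Y) = io (S := S.rest E) Y := restL_io E hE hY
  have e2 : restL E hE (io X) = io (S := S.rest E) X := restL_io E hE hX
  have b1 : Bdd (S := S.rest E) X := rest_VB E hX
  have b2 : Bdd (S := S.rest E) Y := rest_VB E hY
  rw [e1, e2, h_io b1 b2]
  set R : ℕ → ℝ := (S.rest E).rt (fun k => Setoid.ker (X k)) (fun k => Setoid.ker (Y k)) with hR
  have hUR : UB R := UB_rt (b1.toInf) _
  have h3 : ∀ᶠ k in UF, t * S.pr E k ≤ S.pr E k * R k := by
    filter_upwards [ht] with k hk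
    have hn := (S.F k).pos
    have c1 := CH_res_fib (S.F k).μ (S.F k).nn (X k) (fun ω' => (Quotient.mk (S.F k).Z ω', Y k ω')) (E k)
      (fun ω ω' _ _ h1 h2 => hEY k ω ω' (Prod.mk.inj h1).1 (Prod.mk.inj h1).2 h2)
    have c0 : t * (S.F k).n * mass (res (S.F k).μ (E k)) ≤
        CH (res (S.F k).μ (E k)) (X k) (fun ω' => (Quotient.mk (S.F k).Z ω', Y k ω')) := by
      rw [c1]
      unfold mass
      rw [Finset.mul_sum]
      apply Finset.sum_le_sum
      intro ω _
      by_cases h : E k ω
      · by_cases h0 : (S.F k).μ ω = 0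
        · rw [res_pos _ _ _ h, h0, zero_mul, mul_zero]
        · rw [mul_comm]
          apply mul_le_mul_of_nonneg_left (hk ω h0 h)
          rw [res_pos _ _ _ h]
          exact (S.F k).nn ω
      · rw [res_neg _ _ _ h, zero_mul, mul_zero]
    rw [(S.F k).CH_res] at c0
    have c2 : CH ((S.F k).rest (E k)).μ (X k) (fun ω' => (Quotient.mk (S.F k).Z ω', Y k ω')) =
        R k * (S.F k).n := by
      have c3 : R k = ((S.F k).rest (E k)).e (Setoid.ker (X k))
          (Setoid.ker (Y k) ⊓ (S.F k).Z) / (S.F k).n := rfl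
      rw [c3, div_mul_cancel₀ _ hn.ne']
      symm
      apply ((S.F k).rest (E k)).e_congr
      · intro ω ω' _ _
        exact Iff.rfl
      · intro ω ω' _ _
        rw [Prod.mk.injEq]
        constructor
        · rintro ⟨u1, u2⟩
          exact ⟨Quotient.sound u2, u1⟩
        · rintro ⟨u2, u3⟩
          exact ⟨u3, Quotient.exact u2⟩
    replace c0 := c0.trans (le_of_eq (congrArg (fun t => (S.F k).pb (E k) * t) c2))
    beta_reduce at c0
    have c4 : (S.F k).pb (E k) = S.pr E k := rfl
    have c5 : mass (res (S.F k).μ (E k)) = S.pr E k := rfl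
    rw [c4, c5] at c0
    have c6 := div_le_div_of_nonneg_right c0 hn.le
    have c7 : (t * (S.F k).n * S.pr E k) / (S.F k).n = t * S.pr E k := by
      field_simp
    have c8 : S.pr E k * (R k * (S.F k).n) / (S.F k).n = S.pr E k * R k := by
      field_simp
    rw [c7, c8] at c6
    exact c6
  have t1 : Tendsto (fun k => t * S.pr E k) UF (𝓝 (t * ul (S.pr E))) :=
    ((ul_tendsto (UB_pr E)).const_mul _)
  have t2 : Tendsto (fun k => S.pr E k * R k) UF (𝓝 (ul (S.pr E) * ul R)) :=
    (ul_tendsto (UB_pr E)).mul (ul_tendsto hUR)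
  have h4 := le_of_tendsto_of_tendsto t1 t2 h3
  rw [mul_comm] at h4
  exact le_of_mul_le_mul_left h4 hE

end

end Pool.Agent.Helper61.FW
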