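import Pool.Agent.Helper25.FA.Cou
import Pool.Agent.Helper58.TR.Tvd
import Pool.Agent.Helper31.EC.Dens

/-!
# Windows see the node laws, for the states of the array

`off_array` : offsets for which at most levels the window of a point of the chain given the glueing label of a move
(any move) has nearly the node law.
-/

set_option autoImplicit false

namespace Pool.Agent.Helper61.FW

open Finset Pool.Agent.Helper69.RK Pool.Agent.Helper61.GL Pool.Agent.Helper58.TR Pool.Agent.Helper25.FA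
  Pool.Agent.Helper46.WF Pool.Agent.Helper58.VW
open Pool.Agent.Helper92.FW (Cle)

noncomputable section

variable {Ω φ α β R : Type} [Fintype Ω] {N : ℕ} {D : ED Ω φ α β N} {Λ ιr ιc : Type} [Fintype Λ] [Fintype ιr]
  [Fintype ιc] [DecidableEq ιr] [DecidableEq ιc] {l : Λ → ℝ} {en : ιr → ιc → Λ → Ω} {e : ℝ}

/-- the window of a point given the glueing label is not close to the node law -/
def NCl [Fintype α] [Fintype R] (D : ED Ω φ α β N) (Θ : (ιc → Ω) → ℝ) (b0 : ιc) (E : ℕ → (α → Lb φ R) → α → R)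
    (F : α → φ) (T : α → ℝ) (P ρ : ℕ) (o : ℕ → ℕ) (δ : ℝ) (mv : Option ιc) (i s : ℕ) (x : ιc → Ω) : Prop :=
  ¬ Cle (cw Θ (gl D (nd E F T P o i s) b0 mv) x) (fun x' => wf E F T P ρ o i s (D.P (x' b0)))
    (lw (push D.P D.μ) (nd E F T P o i s) (wf E F T P ρ o i s) (D.P (x b0))) δ

/-- **OFFSETS FOR THE ARRAY** -/
theorem off_array [Fintype α] [Fintype R] (h : AR D l en e) (hm : mass D.μ = 1) (a : ιr) (b0 : ιc)
    (E : ℕ → (α → Lb φ R) → α → R) (F : α → φ) (T : α → ℝ) (P ρ S : ℕ)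
    (hF : ∀ ω, D.μ ω ≠ 0 → F (D.P ω) = D.F ω)
    (e3 : ℝ) (he3 : 0 ≤ e3) (h3 : CH D.μ D.z3d D.F ≤ CH D.μ D.zd D.F + e3)
    (hS : 0 < S) (hSP : S + ρ ≤ P) (L : ℕ) {δ : ℝ} (hδ : 0 < δ) :
    ∃ o : ℕ → ℕ, (∀ i, o i < S) ∧
      ∑ i ∈ range L, ∑ s ∈ range S, ∑ mv : Option ιc,
        Pw (push (row en a) l) (NCl D (push (row en a) l) b0 E F T P ρ o δ mv i s) ≤
      4 / δ ^ 2 * (S * ((Fintype.card ιc + 1) * (e + N + e3))) := by
  classical
  set Θ := push (row en a) l with hΘ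
  have hΘ0 : ∀ x, 0 ≤ Θ x := fun x => Pool.Agent.Helper31.EC.push_nn _ _ h.nn x
  have hsup : ∀ x, Θ x ≠ 0 → ∀ b, D.μ (x b) ≠ 0 := by
    intro x hx b
    obtain ⟨w, hw, rfl⟩ := push_ne (row en a) l x hx
    have h1 := h.pu a b
    intro h2
    have h4 : push (en a b) l (row en a w b) = 0 := by
      rw [h1]
      exact h2
    have h5 : push (en a b) l (en a b w) = 0 := h4
    rw [push_apply] at h5
    have h6 := (Finset.sum_eq_zero_iff_of_nonneg (fun x _ => mul_nonneg (by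
      unfold e1_ind
      split_ifs <;> norm_num) (h.nn x))).mp h5 w (mem_univ w)
    have h7 : e1_ind (en a b w = en a b w) = 1 := by
      unfold e1_ind
      simp
    rw [h7, one_mul] at h6
    exact hw h6
  obtain ⟨o, ho, hsum⟩ := windows_close E F T P Θ hΘ0 (fun x => D.P (x b0)) ρ S hS hSP (univ : Finset (Option ιc))
    (fun mv x => ((fun b => D.Q (x b)), zmv D b0 mv x)) L hδ
  refine ⟨o, ho, ?_⟩
  have hPw : ∀ (i s : ℕ) (mv : Option ιc), Pw Θ (NCl D Θ b0 E F T P ρ o δ mv i s) ≤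
      Pw Θ (fun ω => ¬ Cle (cw Θ (fun ω => (((fun b => D.Q (ω b)), zmv D b0 mv ω), nd E F T P o i s (D.P (ω b0)))) ω)
          (fun ω => wf E F T P ρ o i s (D.P (ω b0)))
          (lw Θ (fun ω => nd E F T P o i s (D.P (ω b0))) (fun ω => wf E F T P ρ o i s (D.P (ω b0))) ω) δ) := by
    intro i s mv
    refine Pw_mono Θ hΘ0 ?_
    intro x hx hn
    unfold NCl at hn
    intro hc
    apply hn
    have e1 : cw Θ (gl D (nd E F T P o i s) b0 mv) x =
        cw Θ (fun ω => (((fun b => D.Q (ω b)), zmv D b0 mv ω), nd E F T P o i s (D.P (ω b0)))) x := by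
      funext x'
      refine cw_congr_cond Θ _ _ ?_ hx x'
      intro x1 x2 h1 h2
      simp only [gl, nd, Prod.mk.injEq]
      constructor
      · rintro ⟨⟨⟨a1, a2⟩, a3⟩, a4⟩
        exact ⟨⟨a3, a4⟩, a2⟩
      · rintro ⟨⟨a3, a4⟩, a2⟩
        refine ⟨⟨⟨?_, a2⟩, a3⟩, a4⟩
        have := a2.1
        rwa [hF _ (hsup x1 h1 b0), hF _ (hsup x2 h2 b0)] at this
    have e2 : lw Θ (fun ω => nd E F T P o i s (D.P (ω b0))) (fun ω => wf E F T P ρ o i s (D.P (ω b0))) x =
        lw (push D.P D.μ) (nd E F T P o i s) (wf E F T P ρ o i s) (D.P (x b0)) := by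
      rw [lw_push Θ (fun x : ιc → Ω => D.P (x b0)) (nd E F T P o i s) (wf E F T P ρ o i s) x]
      congr 1
      rw [hΘ, ← h.pu a b0, Pool.Agent.Helper6.VS.push_push, Pool.Agent.Helper6.VS.push_push]
      rfl
    rw [e1, ← e2]
    exact hc
  have hcost : ∀ mv : Option ιc, CH Θ (fun x => ((fun b => D.Q (x b)), zmv D b0 mv x))
        (fun ω => nd E F T P o 0 0 (D.P (ω b0))) -
      CH Θ (fun x => ((fun b => D.Q (x b)), zmv D b0 mv x)) (fun ω => nd E F T P o L 0 (D.P (ω b0))) ≤ e + N + e3 := by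
    intro mv
    have h1 : CH Θ (fun x => ((fun b => D.Q (x b)), zmv D b0 mv x)) (fun ω => nd E F T P o 0 0 (D.P (ω b0))) ≤
        CH Θ (fun x => ((fun b => D.Q (x b)), zmv D b0 mv x)) (fun x => D.F (x b0)) := by
      refine ch_cond Θ hΘ0 _ _ _ ?_
      intro x x' hx hx' he
      simp only [nd, Prod.mk.injEq] at he
      have := he.1
      rwa [hF _ (hsup x hx b0), hF _ (hsup x' hx' b0)] at this
    have h2 : CH Θ (fun x => ((fun b => D.Q (x b)), zmv D b0 mv x)) (fun x => (D.P (x b0), D.F (x b0))) ≤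
        CH Θ (fun x => ((fun b => D.Q (x b)), zmv D b0 mv x)) (fun ω => nd E F T P o L 0 (D.P (ω b0))) := by
      refine ch_cond Θ hΘ0 _ _ _ ?_
      intro x x' _ _ he
      simp only [Prod.mk.injEq] at he
      rw [he.1]
    have h4 := ch_symm Θ (fun x => ((fun b => D.Q (x b)), zmv D b0 mv x)) (fun x => D.P (x b0)) (fun x => D.F (x b0))
    have h5 := h.gl_low hm a b0 (fun _ => ()) mv e3 he3 h3
    rw [← hΘ] at h5
    have h6 : CH Θ (fun x => D.P (x b0)) (gl D (fun _ => ()) b0 mv) =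
        CH Θ (fun x => D.P (x b0)) (fun x => (((fun b => D.Q (x b)), zmv D b0 mv x), D.F (x b0))) := by
      apply ch_congr_right
      intro x x' _ _
      simp only [gl, Prod.mk.injEq, and_true]
      tauto
    have h7 : CH D.μ D.P (fun ω => (D.F ω, ())) = CH D.μ D.P D.F := by
      apply ch_congr_right
      intro x x' _ _
      simp
    have h8 : CH Θ (fun x => D.P (x b0)) (fun x => D.F (x b0)) = CH D.μ D.P D.F := by
      rw [hΘ, Pool.Agent.Helper61.GL.push_CH]
      exact h.CH_en a b0 D.P D.F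
    rw [h6] at h5
    rw [h7] at h5
    rw [h8] at h4
    linarith
  have h0 : 0 ≤ 4 / δ ^ 2 := by positivity
  calc ∑ i ∈ range L, ∑ s ∈ range S, ∑ mv : Option ιc, Pw Θ (NCl D Θ b0 E F T P ρ o δ mv i s)
      ≤ _ := Finset.sum_le_sum fun i _ => Finset.sum_le_sum fun s _ => Finset.sum_le_sum fun mv _ => hPw i s mv
    _ ≤ _ := hsum
    _ ≤ _ := by
      refine mul_le_mul_of_nonneg_left ?_ h0
      refine mul_le_mul_of_nonneg_left ?_ (Nat.cast_nonneg _)
      refine (Finset.sum_le_sum fun mv _ => hcost mv).trans (le_of_eq ?_)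
      rw [Finset.sum_const, Finset.card_univ, Fintype.card_option, nsmul_eq_mul]
      push_cast
      ring

end

end Pool.Agent.Helper61.FW
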