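import Pool.Agent.Helper61.FW.Fib
import Pool.Agent.Helper70.FW.Noise
import Pool.Agent.Helper38.NS.UQ

/-! Theorem FW: START and END: the fibres of a label which is independent of the state in rates. -/

set_option autoImplicit false

namespace Pool.Agent.Helper61.FW

open Finset Filter Topology Pool.Agent.Helper69.RK Pool.Agent.Helper31.EC Pool.Agent.Helper92.W
  Pool.Agent.Helper46.WF Pool.Agent.Helper61.EC Pool.Agent.Helper38.NS
open Pool.Agent.Helper61.GL hiding fl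

noncomputable section

open Sp QS

/-- the base and a random variable -/
def bs {S : Sp} {γ : ℕ → Type} (Y : ∀ k, (S.F k).Ω → γ k) (k : ℕ) (ω : (S.F k).Ω) :
    Quotient (S.F k).Z × γ k := (Quotient.mk (S.F k).Z ω, Y k ω)

/-- END: the entropies of the fibres at all levels -/
theorem se_end {S : Sp} {N : ℕ} {z : Fin N → QS S} {B : S.L} {ρ : ℝ} (hu : UQ S z B ρ) {D : Sp} (p : Pj D S)
    {γ : ℕ → Type} {Y : ∀ k, (D.F k).Ω → γ k} (hY : Bdd Y) (hBY : p.map B ≤ io Y) (f : Fin N → TR D)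
    (hf : ∀ i, QS.mk (f i) = p.qs (z i)) (C : ℝ) (hC : ∀ i k ω, |TR.ev (f i) k ω| ≤ C) (η : ℝ) (hη : 0 < η) :
    ∀ᶠ k in UF, Pw (D.F k).μ (fun ω => ∃ j : ℕ, j ≤ lev D 1 k ∧ ((N : ℝ) - ρ) * j + η * (D.F k).n <
      Hh (cw (D.F k).μ (bs Y k) ω) (fun ω' => vfl j (fun i => TR.ev (f i) k ω'))) ≤ η := by
  classical
  by_contra hcon
  have h1 := UF_not hcon
  have h1' : ∀ᶠ k in UF, η < Pw (D.F k).μ (fun ω => ∃ j : ℕ, j ≤ lev D 1 k ∧ ((N : ℝ) - ρ) * j + η * (D.F k).n <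
      Hh (cw (D.F k).μ (bs Y k) ω) (fun ω' => vfl j (fun i => TR.ev (f i) k ω'))) := by
    filter_upwards [h1] with k hk
    exact not_le.mp hk
  obtain ⟨M, hM8⟩ := exists_nat_ge (2 * (|(N : ℝ) - ρ| + 1) / η)
  have hM0 : (0 : ℝ) < M := lt_of_lt_of_le (by positivity) hM8
  have hM2 : |(N : ℝ) - ρ| / M ≤ η / 2 := by
    rw [div_le_iff₀ hM0]
    rw [div_le_iff₀ hη] at hM8
    nlinarith [abs_nonneg ((N : ℝ) - ρ)]
  set E : Fin (M + 1) → ∀ k, (D.F k).Ω → Prop := fun i k ω =>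
    (((N : ℝ) - ρ) * ((i : ℕ) / M) + η / 2) * (D.F k).n ≤
      Hh (cw (D.F k).μ (bs Y k) ω) (fun ω' => vfl (lev D ((i : ℕ) / M) k) (fun i => TR.ev (f i) k ω')) with hE
  have hcov : ∀ᶠ k in UF, ∀ ω, (D.F k).μ ω ≠ 0 → (∃ j : ℕ, j ≤ lev D 1 k ∧ ((N : ℝ) - ρ) * j + η * (D.F k).n <
      Hh (cw (D.F k).μ (bs Y k) ω) (fun ω' => vfl j (fun i => TR.ev (f i) k ω'))) → ∃ i, E i k ω := by
    refine Eventually.of_forall fun k ω h0 hj => ?_
    obtain ⟨j, hj1, hj2⟩ := hj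
    have hn := (D.F k).pos
    have hjn : (j : ℝ) ≤ (D.F k).n := by
      have h2 := lev_le D zero_le_one k
      rw [one_mul] at h2
      exact le_trans (by exact_mod_cast hj1) h2
    set i : ℕ := ⌈(j : ℝ) * M / (D.F k).n⌉₊ with hi
    have hi1 : i ≤ M := by
      apply Nat.ceil_le.mpr
      rw [div_le_iff₀ hn]
      nlinarith
    have hi2 : (j : ℝ) ≤ (i : ℝ) / M * (D.F k).n := by
      have h3 := Nat.le_ceil ((j : ℝ) * M / (D.F k).n)
      rw [div_le_iff₀ hn, ← hi] at h3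
      rw [div_mul_eq_mul_div, le_div_iff₀ hM0]
      exact h3
    have hi3 : (i : ℝ) / M * (D.F k).n ≤ j + (D.F k).n / M := by
      have h3 := (Nat.ceil_lt_add_one (show 0 ≤ (j : ℝ) * M / (D.F k).n by positivity)).le
      rw [← hi] at h3
      have h4 := mul_le_mul_of_nonneg_right h3 hn.le
      rw [add_mul, div_mul_cancel₀ _ hn.ne', one_mul] at h4
      have h5 := div_le_div_of_nonneg_right h4 hM0.le
      calc (i : ℝ) / M * (D.F k).n = i * (D.F k).n / M := by ring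
        _ ≤ (j * M + (D.F k).n) / M := h5
        _ = j + (D.F k).n / M := by rw [add_div, mul_div_cancel_right₀ _ hM0.ne']
    refine ⟨⟨i, by omega⟩, ?_⟩
    have h4 : j ≤ lev D ((i : ℕ) / M) k := Nat.le_floor hi2
    have h5 : Hh (cw (D.F k).μ (bs Y k) ω) (fun ω' => vfl j (fun i => TR.ev (f i) k ω')) ≤
        Hh (cw (D.F k).μ (bs Y k) ω) (fun ω' => vfl (lev D ((i : ℕ) / M) k) (fun i => TR.ev (f i) k ω')) := by
      apply ch_mono _ (fun ω' => cw_nonneg _ _ (D.F k).nn ω ω')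
      intro a b _ _ hab _
      exact nst_vfl (fun ω' i => TR.ev (f i) k ω') _ _ h4 _ _ hab
    show (((N : ℝ) - ρ) * ((i : ℕ) / M) + η / 2) * (D.F k).n ≤ _
    refine le_trans ?_ (hj2.le.trans h5)
    have h6 : ((N : ℝ) - ρ) * ((i : ℝ) / M * (D.F k).n - j) ≤ |(N : ℝ) - ρ| * ((D.F k).n / M) := by
      have h7 : 0 ≤ (i : ℝ) / M * (D.F k).n - j := by linarith
      calc ((N : ℝ) - ρ) * ((i : ℝ) / M * (D.F k).n - j) ≤ |(N : ℝ) - ρ| * ((i : ℝ) / M * (D.F k).n - j) :=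
            mul_le_mul_of_nonneg_right (le_abs_self _) h7
        _ ≤ |(N : ℝ) - ρ| * ((D.F k).n / M) := mul_le_mul_of_nonneg_left (by linarith) (abs_nonneg _)
    have h8 : |(N : ℝ) - ρ| * ((D.F k).n / M) ≤ η / 2 * (D.F k).n := by
      calc |(N : ℝ) - ρ| * ((D.F k).n / M) = |(N : ℝ) - ρ| / M * (D.F k).n := by ring
        _ ≤ η / 2 * (D.F k).n := mul_le_mul_of_nonneg_right hM2 hn.le
    nlinarith
  obtain ⟨i, hi⟩ := pos_of_cover E _ hη h1' hcov
  have hiM : ((i : ℕ) : ℝ) / M ≤ 1 := by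
    rw [div_le_one hM0]
    have := i.2
    exact_mod_cast (show (i : ℕ) ≤ M by omega)
  have hi0 : (0 : ℝ) ≤ ((i : ℕ) : ℝ) / M := by positivity
  obtain ⟨bv, iv⟩ := io_vfl f C hC hi0 hiM
  have h2 := h_fib_ge (X := fun k ω => vfl (lev D (((i : ℕ) : ℝ) / M) k) (fun i => TR.ev (f i) k ω)) bv hY (E i) hi
    (((N : ℝ) - ρ) * ((i : ℕ) / M) + η / 2) (fun k ω ω' h3 h4 h5 => by
      have h6 : cw (D.F k).μ (bs Y k) ω' = cw (D.F k).μ (bs Y k) ω := by
        funext a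
        apply cw_congr
        show (Quotient.mk (D.F k).Z ω', Y k ω') = (Quotient.mk (D.F k).Z ω, Y k ω)
        rw [h3, h4]
      show _ ≤ Hh (cw (D.F k).μ (bs Y k) ω') _
      rw [h6]
      exact h5) (Eventually.of_forall fun k ω _ h3 => h3)
  rw [iv] at h2
  have h3 := hu.U D p (E i) hi _ hi0 hiM
  have h4 : (QS.vd (fun i => QS.mk (f i)) (((i : ℕ) : ℝ) / M) : D.L) = p.map (vd z (((i : ℕ) : ℝ) / M)) := by
    rw [← p.qs_vd]
    congr 1
    funext i
    exact hf i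
  rw [h4] at h2
  have h5 : h (restL (E i) hi (p.map (vd z (((i : ℕ) : ℝ) / M)))) (restL (E i) hi (io Y)) ≤
      h (restL (E i) hi (p.map (vd z (((i : ℕ) : ℝ) / M)))) (restL (E i) hi (p.map B)) :=
    h_anti (restL_mono (E i) hi hBY)
  rw [Fintype.card_fin] at h3
  linarith

open Classical in
/-- a direction of small projection for a law, if there is one -/
def WW {Ω : Type} [Fintype Ω] {N : ℕ} (a : Fin N) (f : Ω → Fin N → ℝ) (n : ℕ) (t : ℝ) (c : Ω → ℝ) : Fin N → ℝ :=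
  if h : ∃ w : Fin N → ℝ, w a = 1 ∧ (∀ i, |w i| ≤ 1) ∧ Hh c (fun ω' i => fl n (f ω' i - w i * f ω' a)) < t
  then h.choose else Pi.single a 1

theorem WW_a {Ω : Type} [Fintype Ω] {N : ℕ} (a : Fin N) (f : Ω → Fin N → ℝ) (n : ℕ) (t : ℝ) (c : Ω → ℝ) :
    WW a f n t c a = 1 := by
  unfold WW
  split_ifs with h
  · exact h.choose_spec.1
  · simp

theorem WW_abs {Ω : Type} [Fintype Ω] {N : ℕ} (a : Fin N) (f : Ω → Fin N → ℝ) (n : ℕ) (t : ℝ) (c : Ω → ℝ)
    (i : Fin N) : |WW a f n t c i| ≤ 1 := by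
  unfold WW
  split_ifs with h
  · exact h.choose_spec.2.1 i
  · by_cases hi : i = a
    · subst hi
      simp
    · rw [Pi.single_eq_of_ne hi]
      simp

theorem WW_lt {Ω : Type} [Fintype Ω] {N : ℕ} (a : Fin N) (f : Ω → Fin N → ℝ) (n : ℕ) (t : ℝ) (c : Ω → ℝ)
    (h : ∃ w : Fin N → ℝ, w a = 1 ∧ (∀ i, |w i| ≤ 1) ∧ Hh c (fun ω' i => fl n (f ω' i - w i * f ω' a)) < t) :
    Hh c (fun ω' i => fl n (f ω' i - WW a f n t c i * f ω' a)) < t := by
  unfold WW
  rw [dif_pos h]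
  exact h.choose_spec.2.2

theorem fl_sub_le (n : ℕ) (x y : ℝ) : |((fl n x : ℤ) : ℝ) - fl n y| ≤ 2 ^ n * |x - y| + 1 := by
  have h1 := Int.floor_le ((2 : ℝ) ^ n * x)
  have h2 := Int.lt_floor_add_one ((2 : ℝ) ^ n * x)
  have h3 := Int.floor_le ((2 : ℝ) ^ n * y)
  have h4 := Int.lt_floor_add_one ((2 : ℝ) ^ n * y)
  have h5 : (2 : ℝ) ^ n * |x - y| = |2 ^ n * x - 2 ^ n * y| := by
    rw [← mul_sub, abs_mul, abs_of_pos (by positivity : (0 : ℝ) < 2 ^ n)]
  rw [h5]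
  have h6 := le_abs_self ((2 : ℝ) ^ n * x - 2 ^ n * y)
  have h7 := neg_abs_le ((2 : ℝ) ^ n * x - 2 ^ n * y)
  unfold fl
  rw [abs_le]
  constructor <;> linarith

/-- entropy of a projection -/
theorem proj_card {Ω : Type} [Fintype Ω] {N : ℕ} (c : Ω → ℝ) (hc : ∀ ω, 0 ≤ c ω) (hm : mass c = 1) (a : Fin N)
    (u : Ω → Fin N → ℝ) (n : ℕ) (hu : ∀ ω i, |u ω i| ≤ 2) (ha : ∀ ω, c ω ≠ 0 → u ω a = 0) :
    Hh c (fun ω i => fl n (u ω i)) ≤ ((N : ℝ) - 1) * (n + 3) := by
  classical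
  have h1 := ch_pi_sum c hc (fun (i : Fin N) ω => fl n (u ω i)) (fun _ => ())
  have h2 : ∀ i, CH c (fun ω => fl n (u ω i)) (fun _ => ()) ≤ if i = a then 0 else ((n : ℝ) + 3) := by
    intro i
    split_ifs with hi
    · apply le_of_eq
      apply ch_zero
      intro ω ω' h0 h0' _
      rw [hi, ha ω h0, ha ω' h0']
    · have h3 := ch_int c hc (fun ω => fl n (u ω i)) (fun _ => ()) (4 * 2 ^ n + 1) (by positivity) (by
        intro ω ω' _ _ _
        refine (fl_sub_le n _ _).trans ?_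
        have h4 : |u ω i - u ω' i| ≤ 4 := by
          refine (abs_sub _ _).trans ?_
          linarith [hu ω i, hu ω' i]
        have h5 : (0 : ℝ) < 2 ^ n := by positivity
        nlinarith)
      rw [hm, mul_one] at h3
      refine h3.trans ?_
      have h6 : (4 * 2 ^ n + 1 + 1 : ℝ) ≤ 2 ^ (n + 3) := by
        have h7 : (1 : ℝ) ≤ 2 ^ n := one_le_pow₀ (by norm_num)
        rw [pow_add]
        linarith
      calc Real.logb 2 (4 * 2 ^ n + 1 + 1) ≤ Real.logb 2 (2 ^ (n + 3)) :=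
            Real.logb_le_logb_of_le (by norm_num) (by positivity) h6
        _ = (n : ℝ) + 3 := by
            rw [Real.logb_pow, Real.logb_self_eq_one (by norm_num)]
            push_cast
            ring
  refine h1.trans ((Finset.sum_le_sum fun i _ => h2 i).trans (le_of_eq ?_))
  rw [← Finset.add_sum_erase _ _ (Finset.mem_univ a), if_pos rfl, zero_add]
  rw [Finset.sum_congr rfl (g := fun _ => (n : ℝ) + 3) (fun i hi => if_neg (Finset.ne_of_mem_erase hi)),
    Finset.sum_const, Finset.card_erase_of_mem (Finset.mem_univ a), Finset.card_univ, Fintype.card_fin, nsmul_eq_mul]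
  have : 1 ≤ N := by
    have := a.2
    omega
  rw [Nat.cast_sub this]
  norm_num

/-- START: the projections of the fibres are full -/
theorem se_start {S : Sp} {N : ℕ} {z : Fin N → QS S} {B : S.L} {ρ : ℝ} (hu : UQ S z B ρ) {D : Sp} (p : Pj D S)
    {γ : ℕ → Type} {Y : ∀ k, (D.F k).Ω → γ k} (hY : Bdd Y) (hBY : p.map B ≤ io Y)
    (hI : I (p.map (vd z 1)) (io Y) (p.map B) = 0) (f : Fin N → TR D)
    (hf : ∀ i, QS.mk (f i) = p.qs (z i)) (hC : ∀ i k ω, |TR.ev (f i) k ω| ≤ 1) (η : ℝ) (hη : 0 < η) :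
    ∀ᶠ k in UF, Pw (D.F k).μ (fun ω => ∃ (a : Fin N) (w : Fin N → ℝ), w a = 1 ∧ (∀ i, |w i| ≤ 1) ∧
      Hh (cw (D.F k).μ (bs Y k) ω) (fun ω' i => fl (lev D 1 k) (TR.ev (f i) k ω' - w i * TR.ev (f a) k ω')) <
        ((N : ℝ) - 1 - η) * (D.F k).n) ≤ η := by
  classical
  by_contra hcon
  have h1 := UF_not hcon
  have h1' : ∀ᶠ k in UF, η < Pw (D.F k).μ (fun ω => ∃ (a : Fin N) (w : Fin N → ℝ), w a = 1 ∧ (∀ i, |w i| ≤ 1) ∧
      Hh (cw (D.F k).μ (bs Y k) ω) (fun ω' i => fl (lev D 1 k) (TR.ev (f i) k ω' - w i * TR.ev (f a) k ω')) <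
        ((N : ℝ) - 1 - η) * (D.F k).n) := by
    filter_upwards [h1] with k hk
    exact not_le.mp hk
  set E : Fin N → ∀ k, (D.F k).Ω → Prop := fun a k ω => ∃ w : Fin N → ℝ, w a = 1 ∧ (∀ i, |w i| ≤ 1) ∧
      Hh (cw (D.F k).μ (bs Y k) ω) (fun ω' i => fl (lev D 1 k) (TR.ev (f i) k ω' - w i * TR.ev (f a) k ω')) <
        ((N : ℝ) - 1 - η) * (D.F k).n with hE
  obtain ⟨a, ha⟩ := pos_of_cover E _ hη h1' (Eventually.of_forall fun k ω _ h => h)
  set Wf : ∀ k, (D.F k).Ω → Fin N → ℝ := fun k ω => WW a (fun ω' i => TR.ev (f i) k ω') (lev D 1 k)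
    (((N : ℝ) - 1 - η) * (D.F k).n) (cw (D.F k).μ (bs Y k) ω) with hWf
  have hWc : ∀ k ω ω', bs Y k ω = bs Y k ω' → Wf k ω = Wf k ω' := by
    intro k ω ω' h
    have h6 : cw (D.F k).μ (bs Y k) ω = cw (D.F k).μ (bs Y k) ω' := by
      funext b
      exact cw_congr _ _ h b
    show WW a _ _ _ (cw (D.F k).μ (bs Y k) ω) = WW a _ _ _ (cw (D.F k).μ (bs Y k) ω')
    rw [h6]
  have hW1 : ∀ k ω i, |Wf k ω i| ≤ 1 := fun k ω i => WW_abs _ _ _ _ _ i
  set wT : Fin N → TR D := fun i => ⟨fun k ω => Wf k ω i, ⟨fun _ => 1, D.Sub_const zero_le_one,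
    Eventually.of_forall fun k ω _ => hW1 k ω i⟩⟩ with hwT
  have wTe : ∀ i k ω, TR.ev (wT i) k ω = Wf k ω i := fun i k ω => rfl
  have wTa : QS.mk (wT a) = 1 := by
    rw [← map_one QS.mk]
    congr 1
    apply Subtype.ext
    funext k ω
    exact WW_a _ _ _ _ _
  have dgw : ∀ i, dg (QS.mk (wT i)) 1 ≤ io Y := by
    intro i
    rw [← io_fl D (wT i) 1 (fun k ω => hW1 k ω i) zero_le_one le_rfl]
    refine io_le_of_fun hY (Eventually.of_forall fun k ω ω' _ _ hZ hh => ?_)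
    rw [wTe, wTe, hWc k ω ω' (by
      show (Quotient.mk (D.F k).Z ω, Y k ω) = (Quotient.mk (D.F k).Z ω', Y k ω')
      rw [hh, Quotient.sound hZ])]
  set U : Fin N → TR D := fun i => f i - wT i * f a with hU
  have Ue : ∀ i k ω, TR.ev (U i) k ω = TR.ev (f i) k ω - Wf k ω i * TR.ev (f a) k ω := fun i k ω => rfl
  have hU2 : ∀ i k ω, |TR.ev (U i) k ω| ≤ 2 := by
    intro i k ω
    rw [Ue]
    refine (abs_sub _ _).trans ?_
    rw [abs_mul]
    have h2 := mul_le_one₀ (hW1 k ω i) (abs_nonneg _) (hC a k ω)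
    linarith [hC i k ω]
  have mU : ∀ i, QS.mk (U i) = p.qs (z i) * QS.mk (wT a) - p.qs (z a) * QS.mk (wT i) := by
    intro i
    rw [hU, map_sub, map_mul, hf, hf, wTa, mul_one, mul_comm]
  obtain ⟨bU, iU⟩ := io_vfl U 2 hU2 zero_le_one le_rfl
  have h2 := hu.Q D p (io Y) (fun i => QS.mk (wT i)) a 1 zero_le_one le_rfl hI
    (fun i => (dgw i).trans le_sup_right) (by rw [wTa]; exact isUnit_one)
  have h3 : (vd (fun i => p.qs (z i) * QS.mk (wT a) - p.qs (z a) * QS.mk (wT i)) 1 : D.L) =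
      io (fun k ω => vfl (lev D 1 k) (fun i => TR.ev (U i) k ω)) := by
    rw [iU]
    congr 1
    funext i
    exact (mU i).symm
  rw [h3, sup_eq_right.mpr hBY, Fintype.card_fin, mul_one, h_io bU hY] at h2
  set e := ul (D.pr (E a)) with he
  have u2 : UB (D.rt (fun k => Setoid.ker (fun ω => vfl (lev D 1 k) (fun i => TR.ev (U i) k ω)))
      (fun k => Setoid.ker (Y k))) := UB_rt bU.toInf _
  have t1 := ul_tendsto u2
  rw [h2] at t1
  have c1 := t1.eventually (lt_mem_nhds (show (N : ℝ) - 1 - η * e / 8 < N - 1 by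
    have : 0 < η * e / 8 := by positivity
    linarith))
  have c2 : ∀ᶠ k in UF, e / 2 < D.pr (E a) k := eventually_gt_of_lt_ul (UB_pr _) (by rw [← he]; linarith)
  have c3 := D.lim.eventually_ge_atTop (max 1 (24 * (N + 1) / (η * e)))
  obtain ⟨k, k1, k2, k3⟩ := (c1.and (c2.and c3)).exists
  have hn := (D.F k).pos
  have hcw : ∀ ω ω', 0 ≤ cw (D.F k).μ (bs Y k) ω ω' := fun ω ω' => cw_nonneg _ _ (D.F k).nn ω ω'
  have key : CH (D.F k).μ (fun ω => vfl (lev D 1 k) (fun i => TR.ev (U i) k ω)) (bs Y k) ≤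
      ((N : ℝ) - 1) * ((D.F k).n + 3) - η * (D.F k).n * D.pr (E a) k := by
    rw [CH_disint _ (D.F k).nn]
    have e1 : ∀ ω, (D.F k).μ ω * Hh (cw (D.F k).μ (bs Y k) ω)
        (fun ω => vfl (lev D 1 k) (fun i => TR.ev (U i) k ω)) ≤
        (D.F k).μ ω * (((N : ℝ) - 1) * ((D.F k).n + 3)) - η * (D.F k).n * res (D.F k).μ (E a k) ω := by
      intro ω
      by_cases h0 : (D.F k).μ ω = 0
      · have : res (D.F k).μ (E a k) ω = 0 := by
          unfold res
          split_ifs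
          · exact h0
          · rfl
        rw [this, h0, zero_mul, zero_mul, mul_zero, sub_zero]
      · have hlev : (lev D 1 k : ℝ) ≤ (D.F k).n := by
          have h4 := lev_le D zero_le_one k
          rwa [one_mul] at h4
        have hN1 : (0 : ℝ) ≤ (N : ℝ) - 1 := by
          have : 1 ≤ N := by
            have := a.2
            omega
          have h5 : (1 : ℝ) ≤ N := by exact_mod_cast this
          linarith
        by_cases hb : E a k ω
        · rw [res_pos _ _ _ hb]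
          have h5 := WW_lt a (fun ω' i => TR.ev (f i) k ω') (lev D 1 k) (((N : ℝ) - 1 - η) * (D.F k).n)
            (cw (D.F k).μ (bs Y k) ω) hb
          have h6 : Hh (cw (D.F k).μ (bs Y k) ω) (fun ω => vfl (lev D 1 k) (fun i => TR.ev (U i) k ω)) =
              Hh (cw (D.F k).μ (bs Y k) ω) (fun ω' i => fl (lev D 1 k)
                (TR.ev (f i) k ω' - Wf k ω i * TR.ev (f a) k ω')) := by
            apply ch_congr_left
            intro b b' hb1 hb2 _
            have g1 := hWc k b ω (cw_ne_zero _ _ hb1).1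
            have g2 := hWc k b' ω (cw_ne_zero _ _ hb2).1
            have g3 : ∀ b, Wf k b = Wf k ω → vfl (lev D 1 k) (fun i => TR.ev (U i) k b) =
                fun i => fl (lev D 1 k) (TR.ev (f i) k b - Wf k ω i * TR.ev (f a) k b) := by
              intro b gb
              funext i
              show fl _ (TR.ev (U i) k b) = _
              rw [Ue, gb]
            rw [g3 b g1, g3 b' g2]
          have h7 : Hh (cw (D.F k).μ (bs Y k) ω) (fun ω => vfl (lev D 1 k) (fun i => TR.ev (U i) k ω)) ≤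
              ((N : ℝ) - 1) * ((D.F k).n + 3) - η * (D.F k).n := by
            rw [h6]
            refine h5.le.trans ?_
            nlinarith
          calc _ ≤ (D.F k).μ ω * (((N : ℝ) - 1) * ((D.F k).n + 3) - η * (D.F k).n) :=
                mul_le_mul_of_nonneg_left h7 ((D.F k).nn ω)
            _ = _ := by ring
        · rw [res_neg _ _ _ hb, mul_zero, sub_zero]
          apply mul_le_mul_of_nonneg_left _ ((D.F k).nn ω)
          have h8 := proj_card (cw (D.F k).μ (bs Y k) ω) (hcw ω) (cw_sum _ _ (D.F k).nn ω h0) a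
            (fun ω i => TR.ev (U i) k ω) (lev D 1 k) (fun ω i => hU2 i k ω) (fun b _ => by
              show TR.ev (U a) k b = 0
              rw [Ue]
              have : Wf k b a = 1 := WW_a _ _ _ _ _
              rw [this, one_mul, sub_self])
          refine h8.trans ?_
          apply mul_le_mul_of_nonneg_left _ hN1
          linarith
    refine (Finset.sum_le_sum fun ω _ => e1 ω).trans (le_of_eq ?_)
    rw [Finset.sum_sub_distrib, ← Finset.sum_mul, ← Finset.mul_sum]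
    have e2 : ∑ ω, (D.F k).μ ω = 1 := (D.F k).ms
    rw [e2, one_mul]
    rfl
  have k1' : ((N : ℝ) - 1 - η * e / 8) * (D.F k).n <
      CH (D.F k).μ (fun ω => vfl (lev D 1 k) (fun i => TR.ev (U i) k ω)) (bs Y k) := by
    have h4 := CH_rt D (fun k ω => vfl (lev D 1 k) (fun i => TR.ev (U i) k ω)) Y k
    refine lt_of_lt_of_le ?_ (le_of_eq h4.symm)
    exact mul_lt_mul_of_pos_right k1 hn
  have h5 : 24 * ((N : ℝ) + 1) / (η * e) ≤ (D.F k).n := (le_max_right _ _).trans k3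
  rw [div_le_iff₀ (by positivity)] at h5
  have h6 : e / 2 * (η * (D.F k).n) ≤ D.pr (E a) k * (η * (D.F k).n) :=
    mul_le_mul_of_nonneg_right k2.le (by positivity)
  nlinarith

end

end Pool.Agent.Helper61.FW
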